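import Pool.Agent.V1166.VG.Defs

/-! Exactness lemmas for distinguished triangles written with explicit maps. -/

noncomputable section

namespace Pool.Agent.V1166.VG

open CategoryTheory Category Limits Pretriangulated

universe v u

variable {C : Type u} [Category.{v} C] [Preadditive C] [HasZeroObject C] [HasShift C ℤ]
  [∀ n : ℤ, (shiftFunctor C n).Additive] [Pretriangulated C]

section

variable {X Y Z : C} {a : X ⟶ Y} {b : Y ⟶ Z} {c : Z ⟶ X⟦(1 : ℤ)⟧}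

lemma z12 (h : Triangle.mk a b c ∈ distTriang C) : a ≫ b = 0 := comp_distTriang_mor_zero₁₂ _ h
lemma z23 (h : Triangle.mk a b c ∈ distTriang C) : b ≫ c = 0 := comp_distTriang_mor_zero₂₃ _ h
lemma z31 (h : Triangle.mk a b c ∈ distTriang C) : c ≫ a⟦(1 : ℤ)⟧' = 0 :=
  comp_distTriang_mor_zero₃₁ _ h

lemma rot (h : Triangle.mk a b c ∈ distTriang C) :
    Triangle.mk b c (-a⟦(1 : ℤ)⟧') ∈ distTriang C := rot_of_distTriang _ h

lemma ye2 (h : Triangle.mk a b c ∈ distTriang C) {W : C} (f : Y ⟶ W) (hf : a ≫ f = 0) :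
    ∃ g : Z ⟶ W, f = b ≫ g := Triangle.yoneda_exact₂ _ h f hf

lemma ye3 (h : Triangle.mk a b c ∈ distTriang C) {W : C} (f : Z ⟶ W) (hf : b ≫ f = 0) :
    ∃ g : X⟦(1 : ℤ)⟧ ⟶ W, f = c ≫ g := Triangle.yoneda_exact₃ _ h f hf

lemma ye4 (h : Triangle.mk a b c ∈ distTriang C) {W : C} (f : X⟦(1 : ℤ)⟧ ⟶ W)
    (hf : c ≫ f = 0) : ∃ g : Y⟦(1 : ℤ)⟧ ⟶ W, f = a⟦(1 : ℤ)⟧' ≫ g := by
  obtain ⟨g, hg⟩ := ye3 (rot h) f hf
  exact ⟨-g, by rw [hg]; simp⟩

lemma ce1 (h : Triangle.mk a b c ∈ distTriang C) {W : C} (f : W ⟶ X⟦(1 : ℤ)⟧)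
    (hf : f ≫ a⟦(1 : ℤ)⟧' = 0) : ∃ g : W ⟶ Z, f = g ≫ c := Triangle.coyoneda_exact₁ _ h f hf

lemma ce2 (h : Triangle.mk a b c ∈ distTriang C) {W : C} (f : W ⟶ Y) (hf : f ≫ b = 0) :
    ∃ g : W ⟶ X, f = g ≫ a := Triangle.coyoneda_exact₂ _ h f hf

lemma ce3 (h : Triangle.mk a b c ∈ distTriang C) {W : C} (f : W ⟶ Z) (hf : f ≫ c = 0) :
    ∃ g : W ⟶ Y, f = g ≫ b := Triangle.coyoneda_exact₃ _ h f hf

set_option backward.defeqAttrib.useBackward true in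
/-- Change a distinguished triangle by isomorphisms. -/
lemma dist_of_iso {X' Y' Z' : C} {a' : X' ⟶ Y'} {b' : Y' ⟶ Z'} {c' : Z' ⟶ X'⟦(1 : ℤ)⟧}
    (h : Triangle.mk a b c ∈ distTriang C) (x : X' ≅ X) (y : Y' ≅ Y) (z : Z' ≅ Z)
    (ha : a' ≫ y.hom = x.hom ≫ a) (hb : b' ≫ z.hom = y.hom ≫ b)
    (hc : c' ≫ x.hom⟦(1 : ℤ)⟧' = z.hom ≫ c) : Triangle.mk a' b' c' ∈ distTriang C :=
  isomorphic_distinguished _ h _ (Triangle.isoMk _ _ x y z ha hb hc)

lemma fill3 {X' Y' Z' : C} {a' : X' ⟶ Y'} {b' : Y' ⟶ Z'} {c' : Z' ⟶ X'⟦(1 : ℤ)⟧}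
    (h : Triangle.mk a b c ∈ distTriang C) (h' : Triangle.mk a' b' c' ∈ distTriang C)
    (x : X ⟶ X') (y : Y ⟶ Y') (hxy : a ≫ y = x ≫ a') :
    ∃ z : Z ⟶ Z', b ≫ z = y ≫ b' ∧ c ≫ x⟦(1 : ℤ)⟧' = z ≫ c' :=
  complete_distinguished_triangle_morphism _ _ h h' x y hxy

/-- Adding a contractible triangle. -/
lemma dist_add_contractible (h : Triangle.mk a b c ∈ distTriang C) (W : C) :
    Triangle.mk (biprod.lift a (0 : X ⟶ W)) (biprod.map b (𝟙 W)) (biprod.desc c 0) ∈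
      distTriang C := by
  obtain ⟨E, p, q, hE⟩ := distinguished_cocone_triangle (biprod.lift a (0 : X ⟶ W))
  obtain ⟨e₁, h1, h2⟩ := fill3 hE h (𝟙 X) biprod.fst (by simp)
  rw [CategoryTheory.Functor.map_id, comp_id] at h2
  obtain ⟨e₂, h3⟩ := ye2 hE (biprod.snd : Y ⊞ W ⟶ W) (by simp)
  have hm : Mono (biprod.lift e₁ e₂) := by
    rw [Preadditive.mono_iff_cancel_zero]
    intro V x hx
    have x1 : x ≫ e₁ = 0 := by
      have := congrArg (fun y => y ≫ (biprod.fst : Z ⊞ W ⟶ Z)) hx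
      simpa using this
    have x2 : x ≫ e₂ = 0 := by
      have := congrArg (fun y => y ≫ (biprod.snd : Z ⊞ W ⟶ W)) hx
      simpa using this
    obtain ⟨y, rfl⟩ := ce3 hE x (by rw [h2, ← assoc, x1, zero_comp])
    obtain ⟨z, hz⟩ := ce2 h (y ≫ biprod.fst) (by rw [assoc, ← h1, ← assoc, x1])
    have hy : y = z ≫ biprod.lift a (0 : X ⟶ W) := by
      ext
      · simp [hz]
      · rw [assoc z, biprod.lift_snd, comp_zero, h3, ← assoc, x2]
    rw [hy, assoc, z12 hE, comp_zero]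
  have he : Epi (biprod.lift e₁ e₂) := by
    rw [Preadditive.epi_iff_cancel_zero]
    intro V x hx
    have hpx : biprod.map b (𝟙 W) ≫ x = 0 := by
      have : p ≫ biprod.lift e₁ e₂ = biprod.map b (𝟙 W) := by
        ext <;> simp [h1, ← h3]
      rw [← this, assoc, hx, comp_zero]
    have x2 : biprod.inr ≫ x = 0 := by
      have := congrArg (fun y => (biprod.inr : W ⟶ Y ⊞ W) ≫ y) hpx
      simpa using this
    have x1 : b ≫ biprod.inl ≫ x = 0 := by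
      have := congrArg (fun y => (biprod.inl : Y ⟶ Y ⊞ W) ≫ y) hpx
      simpa using this
    obtain ⟨y, hy⟩ := ye3 h _ x1
    have hx' : x = biprod.fst ≫ c ≫ y := by
      ext
      · simp [hy]
      · simp [x2]
    have hqy : q ≫ y = 0 := by
      rw [h2, assoc, ← hx, hx', biprod.lift_fst_assoc]
    obtain ⟨y', hy'⟩ := ye4 hE y hqy
    have hc : c ≫ (biprod.lift a (0 : X ⟶ W))⟦(1 : ℤ)⟧' = 0 := by
      have : biprod.lift a (0 : X ⟶ W) = a ≫ biprod.inl := by ext <;> simp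
      rw [this, Functor.map_comp, ← assoc, z31 h, zero_comp]
    rw [hx', hy', ← assoc c, hc]
    simp
  have : IsIso (biprod.lift e₁ e₂) := by
    have := isSplitEpi_of_epi (biprod.lift e₁ e₂)
    exact isIso_of_mono_of_isSplitEpi _
  refine dist_of_iso hE (Iso.refl X) (Iso.refl _) (asIso (biprod.lift e₁ e₂)).symm ?_ ?_ ?_
  · simp
  · rw [Iso.symm_hom, asIso_inv, IsIso.comp_inv_eq]
    ext <;> simp [h1, ← h3]
  · rw [Iso.symm_hom, asIso_inv, IsIso.eq_inv_comp]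
    simp [h2]

end

lemma mk_mem {T : Triangle C} (hT : T ∈ distTriang C) :
    Triangle.mk T.mor₁ T.mor₂ T.mor₃ ∈ distTriang C := hT

end Pool.Agent.V1166.VG
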