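import Pool.Agent.V1166.VG.ExampleA

/-! The homotopy category of complexes of `ℤ/8`-modules satisfies the hypotheses of Example A. -/

noncomputable section

namespace Pool.Agent.V1166.VG

open CategoryTheory Category Limits Pretriangulated Triangulated

universe v u

/-- The homotopy category of cochain complexes of `ZMod 8`-modules. -/
abbrev K8 : Type 1 := HomotopyCategory (ModuleCat.{0} (ZMod 8)) (ComplexShape.up ℤ)

/-- A map between single complexes which is zero in the homotopy category is zero. -/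
lemma single_map_eq_zero {A : Type u} [Category.{v} A] [Preadditive A] [HasZeroObject A]
    [HasBinaryBiproducts A]
    {X Y : A} (f : X ⟶ Y) (n : ℤ) (h : (HomotopyCategory.singleFunctor A n).map f = 0) :
    f = 0 := by
  have h' : (HomotopyCategory.quotient A (ComplexShape.up ℤ)).map
      ((CochainComplex.singleFunctor A n).map f) = (HomotopyCategory.quotient A _).map 0 := by
    rw [Functor.map_zero]
    exact h
  have H := (HomotopyCategory.homotopyOfEq _ _ h').comm n
  have H' : ((CochainComplex.singleFunctor A n).map f).f n = 0 := by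
    rw [H]
    simp [dNext, prevD]
  have : (CochainComplex.singleFunctor A n).map f = 0 := by
    ext i
    by_cases hi : i = n
    · subst hi
      exact H'
    · exact (HomologicalComplex.isZero_single_obj_X _ _ _ _ hi).eq_of_src _ _
  exact (CochainComplex.singleFunctor A n).map_injective (by rw [this, Functor.map_zero])

/-- The complex `ZMod 8` in degree `0`. -/
def P8 : K8 := (HomotopyCategory.singleFunctor (ModuleCat.{0} (ZMod 8)) 0).obj
  (ModuleCat.of (ZMod 8) (ZMod 8))

/-- Multiplication by `2` on `P8`. -/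
def t8 : P8 ⟶ P8 := (2 : ℕ) • 𝟙 P8

lemma smul_P8 (n : ℕ) : (n • 𝟙 P8 : P8 ⟶ P8) =
    (HomotopyCategory.singleFunctor (ModuleCat.{0} (ZMod 8)) 0).map
      (n • 𝟙 (ModuleCat.of (ZMod 8) (ZMod 8))) := by
  rw [Functor.map_nsmul, CategoryTheory.Functor.map_id]
  rfl

lemma t8_sq : t8 ≫ t8 = (4 : ℕ) • 𝟙 P8 := by
  simp [t8, ← mul_smul]

lemma t8_cube : t8 ≫ t8 ≫ t8 = 0 := by
  have : t8 ≫ t8 ≫ t8 = (8 : ℕ) • 𝟙 P8 := by
    simp [t8, ← mul_smul]
  rw [this, smul_P8]
  have h0 : ((8 : ℕ) • 𝟙 (ModuleCat.of (ZMod 8) (ZMod 8))) = 0 := by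
    ext
    simp
    rfl
  rw [h0, Functor.map_zero]
  rfl

lemma t8_sq_ne : t8 ≫ t8 ≠ 0 := by
  rw [t8_sq, smul_P8]
  intro h
  have h1 := single_map_eq_zero _ _ h
  have h2 := congrArg (fun f : ModuleCat.of (ZMod 8) (ZMod 8) ⟶ ModuleCat.of (ZMod 8) (ZMod 8) =>
    f.hom (1 : ZMod 8)) h1
  simp at h2
  revert h2
  decide

lemma t8_central (e : P8 ⟶ P8) : e ≫ t8 = t8 ≫ e := by
  simp [t8]

end Pool.Agent.V1166.VG
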