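import Pool.Agent.V1166.VG.ExampleB
import Pool.Agent.V1166.VG.Concrete

/-! A ring with elements `t`, `ε` satisfying `t⁵ = t² ε = ε² = 0`, and the homotopy category of
complexes of modules over it. -/

noncomputable section

namespace Pool.Agent.V1166.VG

open CategoryTheory Category Limits Pretriangulated Triangulated

/-- The reduction map. -/
def redB : ZMod 32 →+* ZMod 4 := ZMod.castHom (by norm_num) (ZMod 4)

/-- The commutative ring `(ℤ/32)[ε]/(4ε, ε²)`. The pair `(x, y)` is `x + y ε`. -/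
@[ext]
structure RB where
  x : ZMod 32
  y : ZMod 4

namespace RB

instance : Zero RB := ⟨⟨0, 0⟩⟩
instance : One RB := ⟨⟨1, 0⟩⟩
instance : Add RB := ⟨fun a b => ⟨a.x + b.x, a.y + b.y⟩⟩
instance : Neg RB := ⟨fun a => ⟨-a.x, -a.y⟩⟩
instance : Mul RB := ⟨fun a b => ⟨a.x * b.x, redB a.x * b.y + a.y * redB b.x⟩⟩

@[simp] lemma zero_x : (0 : RB).x = 0 := rfl
@[simp] lemma zero_y : (0 : RB).y = 0 := rfl
@[simp] lemma one_x : (1 : RB).x = 1 := rfl
@[simp] lemma one_y : (1 : RB).y = 0 := rfl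
@[simp] lemma add_x (a b : RB) : (a + b).x = a.x + b.x := rfl
@[simp] lemma add_y (a b : RB) : (a + b).y = a.y + b.y := rfl
@[simp] lemma neg_x (a : RB) : (-a).x = -a.x := rfl
@[simp] lemma neg_y (a : RB) : (-a).y = -a.y := rfl
@[simp] lemma mul_x (a b : RB) : (a * b).x = a.x * b.x := rfl
@[simp] lemma mul_y (a b : RB) : (a * b).y = redB a.x * b.y + a.y * redB b.x := rfl

instance : CommRing RB where
  add_assoc a b c := by ext <;> simp [add_assoc]
  zero_add a := by ext <;> simp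
  add_zero a := by ext <;> simp
  add_comm a b := by ext <;> simp [add_comm]
  neg_add_cancel a := by ext <;> simp
  nsmul := nsmulRec
  zsmul := zsmulRec
  left_distrib a b c := by ext <;> simp <;> ring
  right_distrib a b c := by ext <;> simp <;> ring
  zero_mul a := by ext <;> simp
  mul_zero a := by ext <;> simp
  mul_assoc a b c := by ext <;> simp <;> ring
  one_mul a := by ext <;> simp
  mul_one a := by ext <;> simp
  mul_comm a b := by ext <;> simp <;> ring

end RB

/-- The element `2`. -/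
def gB : RB := ⟨2, 0⟩

/-- The element `4 + ε`. -/
def uB : RB := ⟨4, 1⟩

lemma redB_four : redB 4 = 0 := by decide
lemma redB_two : redB 2 = 2 := by decide

lemma uug : uB * (uB * gB) = 0 := by
  ext
  · simp [uB, gB]; decide
  · simp [uB, gB, redB_four, redB_two]

lemma uu_eq : uB * uB = uB * (gB * gB) := by
  ext
  · simp [uB, gB]; decide
  · simp [uB, gB, redB_four, redB_two]; decide

lemma H_aux : ∀ l : ZMod 32, 2 * redB l = 0 → 16 * (1 - l) ≠ 0 := by decide

lemma H_RB (l y τ z : RB) (h1 : gB * (l * uB) = gB * (gB * y)) (h2 : gB * τ = 0) :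
    uB * (uB * (1 - l + gB * z)) ≠ uB * τ := by
  intro h3
  have a1 := congrArg RB.y h1
  have a2 := congrArg RB.x h2
  have a3 := congrArg RB.x h3
  simp [gB, uB, redB_four, redB_two, sub_eq_add_neg] at a1 a2 a3
  have f4 : (4 : ZMod 4) = 0 := by decide
  have f32 : (32 : ZMod 32) = 0 := by decide
  refine H_aux l.x ?_ ?_
  · rw [a1]
    linear_combination y.y * f4
  · linear_combination a3 + 2 * a2 - z.x * f32

/-- The homotopy category of cochain complexes of `RB`-modules. -/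
abbrev KB : Type 1 := HomotopyCategory (ModuleCat.{0} RB) (ComplexShape.up ℤ)

/-- The complex `RB` in degree `0`. -/
def PB : KB := (HomotopyCategory.singleFunctor (ModuleCat.{0} RB) 0).obj (ModuleCat.of RB RB)

/-- Multiplication by `r` on `RB`. -/
def mulB (r : RB) : ModuleCat.of RB RB ⟶ ModuleCat.of RB RB := ModuleCat.ofHom (r • LinearMap.id)

/-- Multiplication by `r` on `PB`. -/
def θB (r : RB) : PB ⟶ PB := (HomotopyCategory.singleFunctor (ModuleCat.{0} RB) 0).map (mulB r)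

lemma mulB_ext {f g : ModuleCat.of RB RB ⟶ ModuleCat.of RB RB}
    (h : f.hom (1 : RB) = g.hom (1 : RB)) : f = g :=
  ModuleCat.hom_ext (LinearMap.ext_ring h)

lemma θB_comp (r s : RB) : θB r ≫ θB s = θB (r * s) := by
  refine (Functor.map_comp _ _ _).symm.trans ?_
  change _ = (HomotopyCategory.singleFunctor (ModuleCat.{0} RB) 0).map (mulB (r * s))
  congr 1
  apply mulB_ext
  simp [mulB, mul_comm]

lemma θB_add (r s : RB) : θB r + θB s = θB (r + s) := by
  rw [θB, θB, θB]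
  refine (Functor.map_add _).symm.trans ?_
  congr 1
  apply mulB_ext
  simp [mulB]

lemma θB_one : θB 1 = 𝟙 PB := by
  rw [θB]
  have : mulB 1 = 𝟙 _ := by
    apply mulB_ext
    simp [mulB]
  rw [this, CategoryTheory.Functor.map_id]
  rfl

lemma θB_zero : θB 0 = 0 := by
  rw [θB]
  have : mulB 0 = 0 := by
    apply mulB_ext
    simp [mulB]
  rw [this, Functor.map_zero]
  rfl

lemma θB_surj (f : PB ⟶ PB) : ∃ r, f = θB r := by
  obtain ⟨f₀, rfl⟩ := (HomotopyCategory.quotient (ModuleCat.{0} RB)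
    (ComplexShape.up ℤ)).map_surjective f
  obtain ⟨f₁, rfl⟩ := (CochainComplex.singleFunctor (ModuleCat.{0} RB) 0).map_surjective f₀
  refine ⟨f₁.hom (1 : RB), ?_⟩
  have : f₁ = mulB (f₁.hom (1 : RB)) := by
    apply mulB_ext
    simp [mulB]
  conv_lhs => rw [this]
  rfl

lemma θB_inj {r s : RB} (h : θB r = θB s) : r = s := by
  have h0 : θB (r + -s) = 0 := by
    have : θB (r + -s) + θB s = θB s := by
      rw [θB_add, h.symm]
      congr 1
      ring
    simpa using this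
  have h1 := single_map_eq_zero _ _ h0
  have h2 := congrArg (fun f : ModuleCat.of RB RB ⟶ ModuleCat.of RB RB => f.hom (1 : RB)) h1
  simp [mulB] at h2
  exact add_neg_eq_zero.1 h2

lemma PB_comm (f g : PB ⟶ PB) : f ≫ g = g ≫ f := by
  obtain ⟨r, rfl⟩ := θB_surj f
  obtain ⟨s, rfl⟩ := θB_surj g
  rw [θB_comp, θB_comp, mul_comm]

lemma PB_van (f : PB ⟶ PB⟦(1 : ℤ)⟧) : f = 0 := by
  let S := (CochainComplex.singleFunctor (ModuleCat.{0} RB) 0).obj (ModuleCat.of RB RB)
  let Q := HomotopyCategory.quotient (ModuleCat.{0} RB) (ComplexShape.up ℤ)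
  obtain ⟨f₀, hf₀⟩ := Q.map_surjective
    ((show Q.obj S ⟶ (Q.obj S)⟦(1 : ℤ)⟧ from f) ≫ (Q.commShiftIso (1 : ℤ)).inv.app S)
  have h0 : f₀ = 0 := by
    ext i : 1
    by_cases hi : i = 0
    · subst hi
      refine IsZero.eq_of_tgt ?_ _ _
      exact HomologicalComplex.isZero_single_obj_X (ComplexShape.up ℤ) 0
        (ModuleCat.of RB RB) (0 + 1) (by decide)
    · exact (HomologicalComplex.isZero_single_obj_X (ComplexShape.up ℤ) 0
        (ModuleCat.of RB RB) i hi).eq_of_src _ _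
  rw [h0, Functor.map_zero] at hf₀
  have h1 := congrArg (fun x => x ≫ (Q.commShiftIso (1 : ℤ)).hom.app S) hf₀
  simp only [assoc, Iso.inv_hom_id_app, zero_comp] at h1
  exact (h1.trans (comp_id _)).symm

/-- In `KB` there is a good map of exact triangles which is not Verdier good. -/
theorem exists_good_not_verdierGood : ∃ (T T' : Triangle KB) (φ : T ⟶ T'),
    T ∈ distTriang KB ∧ T' ∈ distTriang KB ∧ GoodAlt φ ∧ ¬ VerdierGood φ := by
  obtain ⟨s⟩ := exists_strongOct (θB uB) (θB gB)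
  have hug : θB uB ≫ θB uB ≫ θB gB = 0 := by
    rw [θB_comp, θB_comp, uug, θB_zero]
  obtain ⟨ρ, hρ⟩ := ce1 s.hgu ((θB uB)⟦(1 : ℤ)⟧') (by rw [← Functor.map_comp, hug, Functor.map_zero])
  refine ⟨_, _, mapB s ρ hρ.symm, rot s.hu, rot s.hgu, goodAlt_mapB s ρ hρ.symm (θB gB) ?_,
    not_verdierGood_mapB s ρ hρ.symm PB_comm PB_van hug ?_⟩
  · rw [θB_comp, θB_comp, θB_comp, uu_eq]
  · intro l y τ z h1 h2 h3
    obtain ⟨l, rfl⟩ := θB_surj l
    obtain ⟨y, rfl⟩ := θB_surj y
    obtain ⟨τ, rfl⟩ := θB_surj τ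
    obtain ⟨z, rfl⟩ := θB_surj z
    rw [θB_comp, θB_comp, θB_comp, θB_comp] at h1
    rw [θB_comp, ← θB_zero] at h2
    have e : 𝟙 PB - θB l + θB gB ≫ θB z = θB (1 - l + gB * z) := by
      rw [← θB_one, θB_comp, ← θB_add, sub_eq_add_neg 1 l, ← θB_add]
      have : θB (-l) = -θB l := by
        rw [eq_neg_iff_add_eq_zero, θB_add, neg_add_cancel, θB_zero]
      rw [this, sub_eq_add_neg]
    rw [e, θB_comp, θB_comp, θB_comp] at h3
    exact H_RB l y τ z (θB_inj h1) (θB_inj h2) (θB_inj h3)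

/-- In `KB` there is a Verdier good map of exact triangles which is not good. -/
theorem exists_verdierGood_not_good : ∃ (T T' : Triangle KB) (φ : T ⟶ T'),
    T ∈ distTriang KB ∧ T' ∈ distTriang KB ∧ VerdierGood φ ∧ ¬ GoodAlt φ := by
  obtain ⟨Z, v, w, hT⟩ := distinguished_cocone_triangle (θB ⟨4, 0⟩)
  have h3 : θB ⟨4, 0⟩ ≫ θB ⟨4, 0⟩ ≫ θB ⟨4, 0⟩ = 0 := by
    rw [θB_comp, θB_comp, ← θB_zero]
    have e : (⟨4, 0⟩ : RB) * (⟨4, 0⟩ * ⟨4, 0⟩) = 0 := by
      ext
      · decide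
      · decide
    rw [e]
  have h2 : θB ⟨4, 0⟩ ≫ θB ⟨4, 0⟩ ≠ 0 := by
    rw [θB_comp, ← θB_zero]
    intro h
    have := congrArg RB.x (θB_inj h)
    revert this
    decide
  exact ⟨_, _, mapA hT h3, hT, hT, verdierGood_mapA hT h3,
    fun h => not_good_mapA hT h3 (fun e => PB_comm e _) h2 ((goodAlt_iff _).1 h)⟩

end Pool.Agent.V1166.VG
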