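import Mathlib

/-!
Verdier good maps of exact triangles, good maps (in the sense of Neeman), chain homotopies.
Exact triangles are the distinguished triangles of Mathlib, a map of exact triangles is a
morphism `φ : T ⟶ T'` of Mathlib triangles, `(f, g, h) = (φ.hom₁, φ.hom₂, φ.hom₃)`.
-/

noncomputable section

namespace Pool.Agent.V1166.VG

open CategoryTheory Category Limits Pretriangulated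

universe v u

variable {C : Type u} [Category.{v} C] [Preadditive C] [HasZeroObject C] [HasShift C ℤ]
  [∀ n : ℤ, (shiftFunctor C n).Additive] [Pretriangulated C]

/-- The two octahedra and the factorisation `h = β₂ α₁` of Verdier goodness, relative to chosen
maps `(v₀, w₀)`, `(g', g'')`, `(f', f'')` completing `gu`, `g`, `f` to exact triangles. -/
def VerdierGoodFor {T T' : Triangle C} (φ : T ⟶ T') {A Y'' X'' : C}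
    (v₀ : T'.obj₂ ⟶ A) (w₀ : A ⟶ T.obj₁⟦(1 : ℤ)⟧)
    (g' : T'.obj₂ ⟶ Y'') (g'' : Y'' ⟶ T.obj₂⟦(1 : ℤ)⟧)
    (f' : T'.obj₁ ⟶ X'') (f'' : X'' ⟶ T.obj₁⟦(1 : ℤ)⟧) : Prop :=
  ∃ (α₁ : T.obj₃ ⟶ A) (β₁ : A ⟶ Y'') (α₂ : X'' ⟶ A) (β₂ : A ⟶ T'.obj₃),
    (Triangle.mk α₁ β₁ (g'' ≫ T.mor₂⟦(1 : ℤ)⟧') ∈ distTriang C ∧
      T.mor₂ ≫ α₁ = φ.hom₂ ≫ v₀ ∧ α₁ ≫ w₀ = T.mor₃ ∧ v₀ ≫ β₁ = g' ∧
      β₁ ≫ g'' = w₀ ≫ T.mor₁⟦(1 : ℤ)⟧') ∧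
    (Triangle.mk α₂ β₂ (T'.mor₃ ≫ f'⟦(1 : ℤ)⟧') ∈ distTriang C ∧
      f' ≫ α₂ = T'.mor₁ ≫ v₀ ∧ α₂ ≫ w₀ = f'' ∧ v₀ ≫ β₂ = T'.mor₂ ∧
      β₂ ≫ T'.mor₃ = w₀ ≫ φ.hom₁⟦(1 : ℤ)⟧') ∧
    φ.hom₃ = α₁ ≫ β₂

/-- A map of exact triangles is Verdier good if the condition `VerdierGoodFor` holds for some
exact triangles on `gu`, `g` and `f` (equivalently for all, see `verdierGood_iff`). -/
def VerdierGood {T T' : Triangle C} (φ : T ⟶ T') : Prop :=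
  ∃ (A Y'' X'' : C) (v₀ : T'.obj₂ ⟶ A) (w₀ : A ⟶ T.obj₁⟦(1 : ℤ)⟧)
    (g' : T'.obj₂ ⟶ Y'') (g'' : Y'' ⟶ T.obj₂⟦(1 : ℤ)⟧)
    (f' : T'.obj₁ ⟶ X'') (f'' : X'' ⟶ T.obj₁⟦(1 : ℤ)⟧),
    Triangle.mk (T.mor₁ ≫ φ.hom₂) v₀ w₀ ∈ distTriang C ∧
    Triangle.mk φ.hom₂ g' g'' ∈ distTriang C ∧
    Triangle.mk φ.hom₁ f' f'' ∈ distTriang C ∧
    VerdierGoodFor φ v₀ w₀ g' g'' f' f''

set_option backward.defeqAttrib.useBackward true in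
/-- Uniqueness of cones. -/
lemma cone_iso {X Y A B : C} {u : X ⟶ Y} {v : Y ⟶ A} {w : A ⟶ X⟦(1 : ℤ)⟧} {v' : Y ⟶ B}
    {w' : B ⟶ X⟦(1 : ℤ)⟧} (h : Triangle.mk u v w ∈ distTriang C)
    (h' : Triangle.mk u v' w' ∈ distTriang C) :
    ∃ e : A ≅ B, v ≫ e.hom = v' ∧ e.hom ≫ w' = w := by
  let e := isoTriangleOfIso₁₂ _ _ h h' (Iso.refl X) (Iso.refl Y) (by simp)
  refine ⟨Triangle.π₃.mapIso e, ?_, ?_⟩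
  · have := e.hom.comm₂
    simpa [e] using this
  · have := e.hom.comm₃
    simpa [e] using this.symm

set_option backward.defeqAttrib.useBackward true in
/-- Independence of the chosen triangles. -/
lemma VerdierGoodFor.transport {T T' : Triangle C} {φ : T ⟶ T'} {A Y'' X'' : C}
    {v₀ : T'.obj₂ ⟶ A} {w₀ : A ⟶ T.obj₁⟦(1 : ℤ)⟧}
    {g' : T'.obj₂ ⟶ Y''} {g'' : Y'' ⟶ T.obj₂⟦(1 : ℤ)⟧}
    {f' : T'.obj₁ ⟶ X''} {f'' : X'' ⟶ T.obj₁⟦(1 : ℤ)⟧}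
    (H : VerdierGoodFor φ v₀ w₀ g' g'' f' f'')
    (hA : Triangle.mk (T.mor₁ ≫ φ.hom₂) v₀ w₀ ∈ distTriang C)
    (hY : Triangle.mk φ.hom₂ g' g'' ∈ distTriang C)
    (hX : Triangle.mk φ.hom₁ f' f'' ∈ distTriang C)
    {B Y₂ X₂ : C}
    {v₁ : T'.obj₂ ⟶ B} {w₁ : B ⟶ T.obj₁⟦(1 : ℤ)⟧}
    {g₁ : T'.obj₂ ⟶ Y₂} {g₂ : Y₂ ⟶ T.obj₂⟦(1 : ℤ)⟧}
    {f₁ : T'.obj₁ ⟶ X₂} {f₂ : X₂ ⟶ T.obj₁⟦(1 : ℤ)⟧}
    (hB : Triangle.mk (T.mor₁ ≫ φ.hom₂) v₁ w₁ ∈ distTriang C)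
    (hY₂ : Triangle.mk φ.hom₂ g₁ g₂ ∈ distTriang C)
    (hX₂ : Triangle.mk φ.hom₁ f₁ f₂ ∈ distTriang C) :
    VerdierGoodFor φ v₁ w₁ g₁ g₂ f₁ f₂ := by
  obtain ⟨a, ha₁, ha₂⟩ := cone_iso hA hB
  obtain ⟨y, hy₁, hy₂⟩ := cone_iso hY hY₂
  obtain ⟨x, hx₁, hx₂⟩ := cone_iso hX hX₂
  obtain ⟨α₁, β₁, α₂, β₂, ⟨m1, c11, c12, c13, c14⟩, ⟨m2, c21, c22, c23, c24⟩, hh⟩ := H
  subst ha₁ ha₂ hy₁ hx₁
  refine ⟨α₁ ≫ a.hom, a.inv ≫ β₁ ≫ y.hom, x.inv ≫ α₂ ≫ a.hom, a.inv ≫ β₂,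
    ⟨?_, ?_, ?_, ?_, ?_⟩, ⟨?_, ?_, ?_, ?_, ?_⟩, ?_⟩
  · refine isomorphic_distinguished _ m1 _ (Triangle.isoMk _ _ (Iso.refl _) a.symm y.symm
      (by simp) (by simp) ?_)
    simp [← hy₂]
  · simp [reassoc_of% c11]
  · simpa using c12
  · simp [reassoc_of% c13]
  · simp [hy₂, c14]
  · refine isomorphic_distinguished _ m2 _ (Triangle.isoMk _ _ x.symm a.symm (Iso.refl _)
      (by simp) (by simp) ?_)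
    simp
  · simp [reassoc_of% c21]
  · rw [assoc, assoc, c22, ← hx₂, Iso.inv_hom_id_assoc]
  · simpa using c23
  · simp [c24]
  · simp [hh]

/-- Verdier goodness does not depend on the chosen triangles. -/
theorem verdierGood_iff {T T' : Triangle C} (φ : T ⟶ T') :
    VerdierGood φ ↔ ∀ (A Y'' X'' : C) (v₀ : T'.obj₂ ⟶ A) (w₀ : A ⟶ T.obj₁⟦(1 : ℤ)⟧)
      (g' : T'.obj₂ ⟶ Y'') (g'' : Y'' ⟶ T.obj₂⟦(1 : ℤ)⟧)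
      (f' : T'.obj₁ ⟶ X'') (f'' : X'' ⟶ T.obj₁⟦(1 : ℤ)⟧),
      Triangle.mk (T.mor₁ ≫ φ.hom₂) v₀ w₀ ∈ distTriang C →
      Triangle.mk φ.hom₂ g' g'' ∈ distTriang C →
      Triangle.mk φ.hom₁ f' f'' ∈ distTriang C →
      VerdierGoodFor φ v₀ w₀ g' g'' f' f'' := by
  constructor
  · rintro ⟨A, Y, X, v₀, w₀, g', g'', f', f'', h1, h2, h3, H⟩
    intro A' Y' X' v₁ w₁ g₁ g₂ f₁ f₂ h1' h2' h3'
    exact H.transport h1 h2 h3 h1' h2' h3'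
  · intro H
    obtain ⟨A, v₀, w₀, h1⟩ := distinguished_cocone_triangle (T.mor₁ ≫ φ.hom₂)
    obtain ⟨Y, g', g'', h2⟩ := distinguished_cocone_triangle φ.hom₂
    obtain ⟨X, f', f'', h3⟩ := distinguished_cocone_triangle φ.hom₁
    exact ⟨A, Y, X, v₀, w₀, g', g'', f', f'', h1, h2, h3,
      H A Y X v₀ w₀ g' g'' f' f'' h1 h2 h3⟩

/-- The mapping cone of a map of triangles, in the form
`X' ⊕ Y ⟶ Y' ⊕ Z ⟶ Z' ⊕ ΣX ⟶ Σ(X' ⊕ Y)` with matrices `(u' g; 0 -v)`, `(v' h; 0 -w)`,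
`(w' Σf; 0 -Σu)` (the last one is followed by the identification of `ΣX' ⊕ ΣY` with
`Σ(X' ⊕ Y)` given by `Σ` of the two inclusions). -/
def coneTriangle {T T' : Triangle C} (φ : T ⟶ T') : Triangle C :=
  Triangle.mk (X := T'.obj₁ ⊞ T.obj₂) (Y := T'.obj₂ ⊞ T.obj₃)
    (Z := T'.obj₃ ⊞ (T.obj₁⟦(1 : ℤ)⟧))
    (biprod.desc (biprod.lift T'.mor₁ 0) (biprod.lift φ.hom₂ (-T.mor₂)))
    (biprod.desc (biprod.lift T'.mor₂ 0) (biprod.lift φ.hom₃ (-T.mor₃)))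
    (biprod.desc (T'.mor₃ ≫ biprod.inl⟦(1 : ℤ)⟧')
      (φ.hom₁⟦(1 : ℤ)⟧' ≫ biprod.inl⟦(1 : ℤ)⟧' - T.mor₁⟦(1 : ℤ)⟧' ≫ biprod.inr⟦(1 : ℤ)⟧'))

/-- A map of triangles is good (Neeman) if its mapping cone is exact. -/
def Good {T T' : Triangle C} (φ : T ⟶ T') : Prop := coneTriangle φ ∈ distTriang C

/-- Chain homotopic maps of triangles: `f - f₁ = k₁ u + Σ⁻¹(w' k₃)`, `g - g₁ = u' k₁ + k₂ v`,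
`h - h₁ = v' k₂ + k₃ w`. The first equation is written after applying `Σ`. -/
def ChainHomotopic {T T' : Triangle C} (φ ψ : T ⟶ T') : Prop :=
  ∃ (k₁ : T.obj₂ ⟶ T'.obj₁) (k₂ : T.obj₃ ⟶ T'.obj₂) (k₃ : T.obj₁⟦(1 : ℤ)⟧ ⟶ T'.obj₃),
    (φ.hom₁ - ψ.hom₁)⟦(1 : ℤ)⟧' = (T.mor₁ ≫ k₁)⟦(1 : ℤ)⟧' + k₃ ≫ T'.mor₃ ∧
    φ.hom₂ - ψ.hom₂ = k₁ ≫ T'.mor₁ + T.mor₂ ≫ k₂ ∧
    φ.hom₃ - ψ.hom₃ = k₂ ≫ T'.mor₂ + T.mor₃ ≫ k₃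

end Pool.Agent.V1166.VG
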