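import Pool.Agent.V1166.VG.Basic

/-!
In a triangulated category, let `t` be a central endomorphism of an object `P` with `t³ = 0` and
`t² ≠ 0`. On the exact triangle `P ⟶ P ⟶ Z ⟶ ΣP` of `t`, the map `(t + t², t, 0)` is Verdier good,
is not good, its rotation is not Verdier good, and the chain homotopic map `(t², 0, 0)` is not
Verdier good.
-/

noncomputable section

namespace Pool.Agent.V1166.VG

open CategoryTheory Category Limits Pretriangulated Triangulated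

universe v u

variable {C : Type u} [Category.{v} C] [Preadditive C] [HasZeroObject C] [HasShift C ℤ]
  [∀ n : ℤ, (shiftFunctor C n).Additive] [Pretriangulated C]

/-- If `g = 0`, a Verdier good map `(f, 0, h)` admits `φ : ΣX ⟶ Z'` with `w' φ = Σf` and
`φ w = h`. -/
lemma VerdierGood.exists_lift {T T' : Triangle C} (hT : T ∈ distTriang C) {φ : T ⟶ T'}
    (H : VerdierGood φ) (h0 : φ.hom₂ = 0) :
    ∃ k : T.obj₁⟦(1 : ℤ)⟧ ⟶ T'.obj₃, k ≫ T'.mor₃ = φ.hom₁⟦(1 : ℤ)⟧' ∧ T.mor₃ ≫ k = φ.hom₃ := by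
  obtain ⟨A, Y, X, v₀, w₀, g', g'', f', f'', h1, h2, h3, H⟩ := H
  obtain ⟨α₁, β₁, α₂, β₂, ⟨m1, c11, c12, c13, c14⟩, ⟨m2, c21, c22, c23, c24⟩, hh⟩ := H
  have hz : T.mor₁ ≫ φ.hom₂ = 0 := by rw [h0, comp_zero]
  rw [hz] at h1
  obtain ⟨s, hs⟩ := ce1 h1 (𝟙 (T.obj₁⟦(1 : ℤ)⟧)) (by simp)
  obtain ⟨m, hm⟩ := ye3 (mk_mem hT) α₁ (by rw [c11, h0, zero_comp])
  obtain ⟨q, hq⟩ := ye4 (mk_mem hT) (m ≫ w₀ - 𝟙 _) (by
    rw [Preadditive.comp_sub, ← assoc, ← hm, c12, comp_id, sub_self])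
  have hw : T.mor₃ ≫ T.mor₁⟦(1 : ℤ)⟧' = 0 := z31 (mk_mem hT)
  have hsec : (m - T.mor₁⟦(1 : ℤ)⟧' ≫ q ≫ s) ≫ w₀ = 𝟙 _ := by
    rw [Preadditive.sub_comp, assoc, assoc, ← hs, comp_id, ← hq]
    abel
  refine ⟨(m - T.mor₁⟦(1 : ℤ)⟧' ≫ q ≫ s) ≫ β₂, ?_, ?_⟩
  · rw [assoc, c24, ← assoc, hsec, id_comp]
  · rw [hh, hm, ← assoc, Preadditive.comp_sub, ← assoc (T.mor₃), hw, zero_comp, sub_zero]

section

variable {P Z : C} {t : P ⟶ P} {v : P ⟶ Z} {w : Z ⟶ P⟦(1 : ℤ)⟧}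

/-- The map `(t + t², t, 0)` of the exact triangle on `t` to itself. -/
def mapA (hT : Triangle.mk t v w ∈ distTriang C) (h3 : t ≫ t ≫ t = 0) :
    Triangle.mk t v w ⟶ Triangle.mk t v w :=
  Triangle.homMk _ _ (t + t ≫ t : P ⟶ P) (t : P ⟶ P) (0 : Z ⟶ Z)
    (show t ≫ t = (t + t ≫ t) ≫ t by rw [Preadditive.add_comp, assoc, h3, add_zero])
    (show v ≫ (0 : Z ⟶ Z) = t ≫ v by rw [z12 hT, comp_zero])
    (show w ≫ (t + t ≫ t)⟦(1 : ℤ)⟧' = (0 : Z ⟶ Z) ≫ w by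
      rw [Functor.map_add, Functor.map_comp, Preadditive.comp_add, ← assoc, z31 hT]
      simp)

/-- The map `(t², 0, 0)` of the exact triangle on `t` to itself. -/
def mapA' (hT : Triangle.mk t v w ∈ distTriang C) (h3 : t ≫ t ≫ t = 0) :
    Triangle.mk t v w ⟶ Triangle.mk t v w :=
  Triangle.homMk _ _ (t ≫ t : P ⟶ P) (0 : P ⟶ P) (0 : Z ⟶ Z)
    (show t ≫ (0 : P ⟶ P) = (t ≫ t) ≫ t by rw [assoc, h3, comp_zero])
    (show v ≫ (0 : Z ⟶ Z) = (0 : P ⟶ P) ≫ v by rw [zero_comp, comp_zero])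
    (show w ≫ (t ≫ t)⟦(1 : ℤ)⟧' = (0 : Z ⟶ Z) ≫ w by
      rw [Functor.map_comp, ← assoc, z31 hT]
      simp)

lemma chainHomotopic_mapA (hT : Triangle.mk t v w ∈ distTriang C) (h3 : t ≫ t ≫ t = 0) :
    ChainHomotopic (mapA hT h3) (mapA' hT h3) := by
  refine ⟨(𝟙 P : P ⟶ P), (0 : Z ⟶ P), (0 : P⟦(1 : ℤ)⟧ ⟶ Z), ?_, ?_, ?_⟩
  · change (t + t ≫ t - t ≫ t)⟦(1 : ℤ)⟧' = (t ≫ 𝟙 P)⟦(1 : ℤ)⟧' + (0 : P⟦(1 : ℤ)⟧ ⟶ Z) ≫ w
    simp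
  · change t - (0 : P ⟶ P) = 𝟙 P ≫ t + v ≫ (0 : Z ⟶ P)
    simp
  · change (0 : Z ⟶ Z) - (0 : Z ⟶ Z) = (0 : Z ⟶ P) ≫ v + w ≫ (0 : P⟦(1 : ℤ)⟧ ⟶ Z)
    simp

variable [IsTriangulated C]

/-- `(t + t², t, 0)` is Verdier good. -/
lemma verdierGood_mapA (hT : Triangle.mk t v w ∈ distTriang C) (h3 : t ≫ t ≫ t = 0) :
    VerdierGood (mapA hT h3) := by
  obtain ⟨A, v₀, w₀, hA⟩ := distinguished_cocone_triangle (t ≫ t)
  let O := someOctahedron rfl hT hT hA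
  have hw : w ≫ t⟦(1 : ℤ)⟧' = 0 := z31 hT
  have hinv1 : (𝟙 P + t) ≫ (𝟙 P - t + t ≫ t) = 𝟙 P := by
    simp only [Preadditive.comp_add, Preadditive.comp_sub, Preadditive.add_comp, comp_id, id_comp,
      h3]
    abel
  have hinv2 : (𝟙 P - t + t ≫ t) ≫ (𝟙 P + t) = 𝟙 P := by
    simp only [Preadditive.comp_add, Preadditive.sub_comp, Preadditive.add_comp, comp_id, id_comp,
      h3, assoc]
    abel
  let e : P ≅ P := ⟨𝟙 P + t, 𝟙 P - t + t ≫ t, hinv1, hinv2⟩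
  have hX : Triangle.mk (t + t ≫ t) v w ∈ distTriang C := by
    refine dist_of_iso hT e (Iso.refl P) (Iso.refl Z) ?_ ?_ ?_
    · simp only [Iso.refl_hom, comp_id, e, Preadditive.add_comp, id_comp]
    · simp
    · change w ≫ (𝟙 P + t)⟦(1 : ℤ)⟧' = 𝟙 Z ≫ w
      rw [Functor.map_add, Preadditive.comp_add, hw, add_zero, id_comp,
        (shiftFunctor C (1 : ℤ)).map_id, comp_id]
  refine ⟨A, Z, Z, v₀, w₀, v, w, v, w, hA, hT, hX, O.m₁, O.m₃, O.m₁, O.m₃,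
    ⟨O.mem, O.comm₁, O.comm₂, O.comm₃, O.comm₄.symm⟩,
    ⟨O.mem, O.comm₁, O.comm₂, O.comm₃, ?_⟩, ?_⟩
  · change O.m₃ ≫ w = w₀ ≫ (t + t ≫ t)⟦(1 : ℤ)⟧'
    rw [Functor.map_add, Preadditive.comp_add, z31 hA, add_zero]
    exact O.comm₄.symm
  · exact (z12 O.mem).symm

omit [IsTriangulated C] in
/-- `(t², 0, 0)` is not Verdier good. -/
lemma not_verdierGood_mapA' (hT : Triangle.mk t v w ∈ distTriang C) (h3 : t ≫ t ≫ t = 0)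
    (hc : ∀ e : P ⟶ P, e ≫ t = t ≫ e) (h2 : t ≫ t ≠ 0) : ¬ VerdierGood (mapA' hT h3) := by
  intro H
  obtain ⟨k, hk1, hk2⟩ := H.exists_lift hT rfl
  change P⟦(1 : ℤ)⟧ ⟶ Z at k
  change k ≫ w = (t ≫ t)⟦(1 : ℤ)⟧' at hk1
  change w ≫ k = 0 at hk2
  obtain ⟨k', hk'⟩ := ye4 hT k hk2
  obtain ⟨r, hr⟩ := (shiftFunctor C (1 : ℤ)).map_surjective (k' ≫ w)
  have e1 : r ≫ t = 0 := by
    apply (shiftFunctor C (1 : ℤ)).map_injective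
    rw [Functor.map_comp, hr, assoc, z31 hT, comp_zero, Functor.map_zero]
  have e2 : t ≫ r = t ≫ t := by
    apply (shiftFunctor C (1 : ℤ)).map_injective
    rw [Functor.map_comp, hr, ← hk1, hk', assoc]
  exact h2 (by rw [← e2, ← hc, e1])

omit [IsTriangulated C] in
/-- The rotation of `(t + t², t, 0)` is not Verdier good. -/
lemma not_verdierGood_rotate_mapA (hT : Triangle.mk t v w ∈ distTriang C) (h3 : t ≫ t ≫ t = 0)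
    (hc : ∀ e : P ⟶ P, e ≫ t = t ≫ e) (h2 : t ≫ t ≠ 0) :
    ¬ VerdierGood ((rotate C).map (mapA hT h3)) := by
  intro H
  obtain ⟨k, hk1, hk2⟩ := H.exists_lift (rot_of_distTriang _ hT) rfl
  change P⟦(1 : ℤ)⟧ ⟶ P⟦(1 : ℤ)⟧ at k
  change k ≫ (-t⟦(1 : ℤ)⟧') = t⟦(1 : ℤ)⟧' at hk1
  change (-t⟦(1 : ℤ)⟧') ≫ k = (t + t ≫ t)⟦(1 : ℤ)⟧' at hk2
  obtain ⟨r, hr⟩ := (shiftFunctor C (1 : ℤ)).map_surjective (-k)
  have e1 : r ≫ t = t := by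
    apply (shiftFunctor C (1 : ℤ)).map_injective
    rw [Functor.map_comp, hr, Preadditive.neg_comp]
    rwa [Preadditive.comp_neg] at hk1
  have e2 : t ≫ r = t + t ≫ t := by
    apply (shiftFunctor C (1 : ℤ)).map_injective
    rw [Functor.map_comp, hr, Preadditive.comp_neg]
    rwa [Preadditive.neg_comp] at hk2
  rw [hc] at e1
  rw [e1] at e2
  exact h2 (by simpa using e2.symm)

omit [IsTriangulated C] in
/-- `(t + t², t, 0)` is not good. -/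
lemma not_good_mapA (hT : Triangle.mk t v w ∈ distTriang C) (h3 : t ≫ t ≫ t = 0)
    (hc : ∀ e : P ⟶ P, e ≫ t = t ≫ e) (h2 : t ≫ t ≠ 0) : ¬ Good (mapA hT h3) := by
  intro H
  obtain ⟨k, hk1, hk2⟩ := complete_distinguished_triangle_morphism₁
    (coneTriangle (mapA hT h3)) (Triangle.mk t v w) H hT
    (biprod.fst : P ⊞ Z ⟶ P) (biprod.fst : Z ⊞ (P⟦(1 : ℤ)⟧) ⟶ Z) (by
      change biprod.desc (biprod.lift v 0) (biprod.lift (0 : Z ⟶ Z) (-w)) ≫ biprod.fst =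
        biprod.fst ≫ v
      ext <;> simp)
  change P ⊞ P ⟶ P at k
  change biprod.desc (biprod.lift t (0 : P ⟶ Z)) (biprod.lift t (-v)) ≫ biprod.fst =
    k ≫ t at hk1
  change biprod.desc (w ≫ (biprod.inl : P ⟶ P ⊞ P)⟦(1 : ℤ)⟧')
    ((t + t ≫ t)⟦(1 : ℤ)⟧' ≫ (biprod.inl : P ⟶ P ⊞ P)⟦(1 : ℤ)⟧' -
      t⟦(1 : ℤ)⟧' ≫ (biprod.inr : P ⟶ P ⊞ P)⟦(1 : ℤ)⟧') ≫ k⟦(1 : ℤ)⟧' = biprod.fst ≫ w at hk2
  have e1 : t = (biprod.inl ≫ k) ≫ t := by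
    have := congrArg (fun x => (biprod.inl : P ⟶ P ⊞ P) ≫ x) hk1
    simpa using this
  have e2 : t = (biprod.inr ≫ k) ≫ t := by
    have := congrArg (fun x => (biprod.inr : P ⟶ P ⊞ P) ≫ x) hk1
    simpa using this
  have e3 : (t + t ≫ t) ≫ (biprod.inl ≫ k) = t ≫ (biprod.inr ≫ k) := by
    have := congrArg (fun x => (biprod.inr : P⟦(1 : ℤ)⟧ ⟶ Z ⊞ (P⟦(1 : ℤ)⟧)) ≫ x) hk2
    apply (shiftFunctor C (1 : ℤ)).map_injective
    rw [← sub_eq_zero]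
    simpa [Preadditive.sub_comp] using this
  rw [hc] at e1 e2
  rw [← e2, Preadditive.add_comp, assoc, ← e1] at e3
  exact h2 (by simpa using e3)

end

end Pool.Agent.V1166.VG
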