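import Pool.Agent.V1166.VG.Basic

/-! The mapping cone with the summands in the other order. -/

noncomputable section

namespace Pool.Agent.V1166.VG

open CategoryTheory Category Limits Pretriangulated

universe v u

variable {C : Type u} [Category.{v} C] [Preadditive C] [HasZeroObject C] [HasShift C ℤ]
  [∀ n : ℤ, (shiftFunctor C n).Additive] [Pretriangulated C]

/-- The mapping cone of a map of triangles, in the form
`Y ⊕ X' ⟶ Z ⊕ Y' ⟶ ΣX ⊕ Z' ⟶ Σ(Y ⊕ X')` with matrices `(-v 0; g u')`, `(-w 0; h v')`,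
`(-Σu 0; Σf w')` (the last one is followed by the identification of `ΣY ⊕ ΣX'` with
`Σ(Y ⊕ X')` given by `Σ` of the two inclusions). -/
def coneTriangleAlt {T T' : Triangle C} (φ : T ⟶ T') : Triangle C :=
  Triangle.mk (X := T.obj₂ ⊞ T'.obj₁) (Y := T.obj₃ ⊞ T'.obj₂)
    (Z := (T.obj₁⟦(1 : ℤ)⟧) ⊞ T'.obj₃)
    (biprod.desc (biprod.lift (-T.mor₂) φ.hom₂) (biprod.lift 0 T'.mor₁))
    (biprod.desc (biprod.lift (-T.mor₃) φ.hom₃) (biprod.lift 0 T'.mor₂))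
    (biprod.desc
      (-(T.mor₁⟦(1 : ℤ)⟧' ≫ biprod.inl⟦(1 : ℤ)⟧') + φ.hom₁⟦(1 : ℤ)⟧' ≫ biprod.inr⟦(1 : ℤ)⟧')
      (T'.mor₃ ≫ biprod.inr⟦(1 : ℤ)⟧'))

/-- A map of exact triangles is good (Neeman) if its mapping cone is exact; here the mapping
cone has its summands in the order `Y ⊕ X'`, `Z ⊕ Y'`, `ΣX ⊕ Z'`. -/
def GoodAlt {T T' : Triangle C} (φ : T ⟶ T') : Prop := coneTriangleAlt φ ∈ distTriang C

/-- The two mapping cones are isomorphic. -/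
def coneIso {T T' : Triangle C} (φ : T ⟶ T') : coneTriangleAlt φ ≅ coneTriangle φ :=
  Triangle.isoMk _ _ (biprod.braiding T.obj₂ T'.obj₁) (biprod.braiding T.obj₃ T'.obj₂)
    (biprod.braiding (T.obj₁⟦(1 : ℤ)⟧) T'.obj₃)
    (by
      change biprod.desc (biprod.lift (-T.mor₂) φ.hom₂) (biprod.lift 0 T'.mor₁) ≫
        (biprod.braiding T.obj₃ T'.obj₂).hom = (biprod.braiding T.obj₂ T'.obj₁).hom ≫
        biprod.desc (biprod.lift T'.mor₁ 0) (biprod.lift φ.hom₂ (-T.mor₂))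
      ext <;> simp)
    (by
      change biprod.desc (biprod.lift (-T.mor₃) φ.hom₃) (biprod.lift 0 T'.mor₂) ≫
        (biprod.braiding (T.obj₁⟦(1 : ℤ)⟧) T'.obj₃).hom = (biprod.braiding T.obj₃ T'.obj₂).hom ≫
        biprod.desc (biprod.lift T'.mor₂ 0) (biprod.lift φ.hom₃ (-T.mor₃))
      ext <;> simp)
    (by
      change biprod.desc
        (-(T.mor₁⟦(1 : ℤ)⟧' ≫ biprod.inl⟦(1 : ℤ)⟧') +
          φ.hom₁⟦(1 : ℤ)⟧' ≫ biprod.inr⟦(1 : ℤ)⟧')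
        (T'.mor₃ ≫ biprod.inr⟦(1 : ℤ)⟧') ≫ ((biprod.braiding T.obj₂ T'.obj₁).hom)⟦(1 : ℤ)⟧' =
        (biprod.braiding (T.obj₁⟦(1 : ℤ)⟧) T'.obj₃).hom ≫
        biprod.desc (T'.mor₃ ≫ biprod.inl⟦(1 : ℤ)⟧')
        (φ.hom₁⟦(1 : ℤ)⟧' ≫ biprod.inl⟦(1 : ℤ)⟧' - T.mor₁⟦(1 : ℤ)⟧' ≫ biprod.inr⟦(1 : ℤ)⟧')
      have e1 : (biprod.inl : T.obj₂ ⟶ T.obj₂ ⊞ T'.obj₁) ≫
        (biprod.braiding T.obj₂ T'.obj₁).hom = biprod.inr := by ext <;> simp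
      have e2 : (biprod.inr : T'.obj₁ ⟶ T.obj₂ ⊞ T'.obj₁) ≫
        (biprod.braiding T.obj₂ T'.obj₁).hom = biprod.inl := by ext <;> simp
      have e3 : (biprod.inl : (T.obj₁⟦(1 : ℤ)⟧) ⟶ (T.obj₁⟦(1 : ℤ)⟧) ⊞ T'.obj₃) ≫
        (biprod.braiding (T.obj₁⟦(1 : ℤ)⟧) T'.obj₃).hom = biprod.inr := by ext <;> simp
      have e4 : (biprod.inr : T'.obj₃ ⟶ (T.obj₁⟦(1 : ℤ)⟧) ⊞ T'.obj₃) ≫
        (biprod.braiding (T.obj₁⟦(1 : ℤ)⟧) T'.obj₃).hom = biprod.inl := by ext <;> simp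
      have e1' := congrArg (fun x => x⟦(1 : ℤ)⟧') e1
      have e2' := congrArg (fun x => x⟦(1 : ℤ)⟧') e2
      rw [Functor.map_comp] at e1' e2'
      apply biprod.hom_ext'
      · rw [biprod.inl_desc_assoc, ← assoc, e3, biprod.inr_desc, Preadditive.add_comp,
          Preadditive.neg_comp, assoc, assoc, e1', e2']
        abel
      · rw [biprod.inr_desc_assoc, ← assoc, e4, biprod.inl_desc, assoc, e2'])

lemma goodAlt_iff {T T' : Triangle C} (φ : T ⟶ T') : GoodAlt φ ↔ Good φ :=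
  distinguished_iff_of_iso (coneIso φ)

end Pool.Agent.V1166.VG
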