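import Pool.Agent.V1166.VG.StrongOct
import Pool.Agent.V1166.VG.GoodAlt

/-! A good map of exact triangles which is not Verdier good. -/

noncomputable section

namespace Pool.Agent.V1166.VG

open CategoryTheory Category Limits Pretriangulated

universe v u

variable {C : Type u} [Category.{v} C] [Preadditive C] [HasZeroObject C] [HasShift C ℤ]
  [∀ n : ℤ, (shiftFunctor C n).Additive] [Pretriangulated C]

lemma ring_part {R : Type*} [CommRing R] {u g p e₁ p' τ s q n k l k' x : R}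
    (h1 : -(p * u) + e₁ = -u) (h2 : p - 1 = u * p') (h3 : e₁ - u * u = u * τ)
    (h4 : s - q * u = g * n) (h5 : s * g = 0) (h6 : k + u * l - 1 = u * g * k')
    (h7 : q * k + l + s * l = g * x) (h8 : p * k + e₁ * l = 1) (h0 : u * u * g = 0) :
    g * l * u = g * g * ((x - q * u * k' - n * l) * u + n) ∧
      u * u * (1 - l + g * k') = u * (-τ) := by
  constructor
  · linear_combination (g * u) * h7 - (g * u * q) * h6 - (g * u * l) * h4 - h5 + g * h4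
  · linear_combination -h3 + h1 + u * h2 + u * (h8 - p * h6 -
      (1 - u * l + u * g * k') * h2 - l * h1 - l * u * h2) - u * p' * k' * h0

variable {P : C} {a g : P ⟶ P} (s : StrongOct a g)

/-- The map `(g, α + ρ w, 1)` from `(v, w, -Σa)` to `(v₀, w₀, -Σ(ga))`. -/
def mapB (ρ : P⟦(1 : ℤ)⟧ ⟶ s.A) (hρ : ρ ≫ s.w₀ = a⟦(1 : ℤ)⟧') :
    Triangle.mk s.v s.w (-a⟦(1 : ℤ)⟧') ⟶ Triangle.mk s.v₀ s.w₀ (-(a ≫ g)⟦(1 : ℤ)⟧') :=
  Triangle.homMk _ _ (g : P ⟶ P) (s.α + s.w ≫ ρ : s.Z ⟶ s.A) (𝟙 (P⟦(1 : ℤ)⟧))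
    (show s.v ≫ (s.α + s.w ≫ ρ) = g ≫ s.v₀ by
      rw [Preadditive.comp_add, ← assoc, z23 s.hu, zero_comp, add_zero, s.c1])
    (show s.w ≫ 𝟙 _ = (s.α + s.w ≫ ρ) ≫ s.w₀ by
      rw [Preadditive.add_comp, assoc, hρ, z31 s.hu, add_zero, s.c2, comp_id])
    (show (-a⟦(1 : ℤ)⟧') ≫ g⟦(1 : ℤ)⟧' = 𝟙 _ ≫ (-(a ≫ g)⟦(1 : ℤ)⟧') by
      rw [Functor.map_comp, Preadditive.neg_comp, id_comp])

/-- The homotopy cartesian square with `α + ρ w` in place of `α`. -/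
lemma dist_hc1' (ρ : P⟦(1 : ℤ)⟧ ⟶ s.A) (hρ : ρ ≫ s.w₀ = a⟦(1 : ℤ)⟧') (z : P ⟶ P)
    (hz : a ≫ a = a ≫ g ≫ z) :
    Triangle.mk (biprod.lift g (-s.v)) (biprod.desc s.v₀ (s.α + s.w ≫ ρ))
      (s.w₀ ≫ a⟦(1 : ℤ)⟧') ∈ distTriang C := by
  have h0 : s.w₀ ≫ (a ≫ a)⟦(1 : ℤ)⟧' = 0 := by
    rw [hz, ← assoc a g z, Functor.map_comp, ← assoc, z31 s.hgu, zero_comp]
  set N : s.A ⟶ s.A := s.w₀ ≫ ρ with hN
  have hN2 : N ≫ N = s.w₀ ≫ a⟦(1 : ℤ)⟧' ≫ ρ := by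
    rw [hN, assoc, ← assoc ρ, hρ]
  have hN3 : N ≫ N ≫ N = 0 := by
    rw [hN2, hN, assoc, ← assoc ρ, hρ, ← assoc (a⟦(1 : ℤ)⟧'), ← Functor.map_comp, ← assoc, h0,
      zero_comp]
  have hNw : N ≫ s.w₀ ≫ a⟦(1 : ℤ)⟧' = 0 := by
    rw [hN, assoc, ← assoc ρ, hρ, ← Functor.map_comp, h0]
  let e : s.A ≅ s.A :=
    { hom := 𝟙 _ - N + N ≫ N
      inv := 𝟙 _ + N
      hom_inv_id := by
        simp only [Preadditive.comp_add, Preadditive.sub_comp, Preadditive.add_comp, comp_id,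
          id_comp, assoc, hN3]
        abel
      inv_hom_id := by
        simp only [Preadditive.comp_add, Preadditive.comp_sub, Preadditive.add_comp, comp_id,
          id_comp, hN3]
        abel }
  refine dist_of_iso s.hc1 (Iso.refl P) (Iso.refl _) e ?_ ?_ ?_
  · simp
  · rw [← Iso.eq_comp_inv]
    change _ = (𝟙 _ ≫ _) ≫ (𝟙 _ + N)
    rw [id_comp]
    ext
    · rw [biprod.inl_desc, ← assoc, biprod.inl_desc, Preadditive.comp_add, comp_id, hN,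
        ← assoc, z23 s.hgu, zero_comp, add_zero]
    · rw [biprod.inr_desc, ← assoc, biprod.inr_desc, Preadditive.comp_add, comp_id, hN,
        ← assoc, s.c2]
  · change (s.w₀ ≫ a⟦(1 : ℤ)⟧') ≫ (𝟙 P)⟦(1 : ℤ)⟧' = (𝟙 _ - N + N ≫ N) ≫ s.w₀ ≫ a⟦(1 : ℤ)⟧'
    rw [CategoryTheory.Functor.map_id, comp_id, Preadditive.add_comp, Preadditive.sub_comp,
      assoc N, hNw, id_comp, comp_zero, sub_zero, add_zero]

/-- `mapB` is good. -/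
lemma goodAlt_mapB (ρ : P⟦(1 : ℤ)⟧ ⟶ s.A) (hρ : ρ ≫ s.w₀ = a⟦(1 : ℤ)⟧') (z : P ⟶ P)
    (hz : a ≫ a = a ≫ g ≫ z) : GoodAlt (mapB s ρ hρ) := by
  have h := dist_add_contractible (rot (dist_hc1' s ρ hρ z hz)) (P⟦(1 : ℤ)⟧)
  let y : (P⟦(1 : ℤ)⟧) ⊞ s.A ≅ s.A ⊞ (P⟦(1 : ℤ)⟧) :=
    { hom := biprod.desc (biprod.lift 0 (𝟙 _)) (biprod.lift (𝟙 _) s.w₀)
      inv := biprod.desc (biprod.lift (-s.w₀) (𝟙 _)) (biprod.lift (𝟙 _) 0)
      hom_inv_id := by ext <;> simp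
      inv_hom_id := by ext <;> simp }
  let t : (P⟦(1 : ℤ)⟧) ⊞ (P⟦(1 : ℤ)⟧) ≅ (P⟦(1 : ℤ)⟧) ⊞ (P⟦(1 : ℤ)⟧) :=
    { hom := biprod.desc (biprod.lift (-𝟙 _) 0) (biprod.lift (a⟦(1 : ℤ)⟧') (𝟙 _))
      inv := biprod.desc (biprod.lift (-𝟙 _) 0) (biprod.lift (a⟦(1 : ℤ)⟧') (𝟙 _))
      hom_inv_id := by ext <;> simp
      inv_hom_id := by ext <;> simp }
  refine dist_of_iso h (biprod.braiding _ _) y t ?_ ?_ ?_
  · change biprod.desc (biprod.lift (-s.w) (s.α + s.w ≫ ρ)) (biprod.lift 0 s.v₀) ≫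
      biprod.desc (biprod.lift 0 (𝟙 _)) (biprod.lift (𝟙 _) s.w₀) =
      (biprod.braiding s.Z P).hom ≫ biprod.lift (biprod.desc s.v₀ (s.α + s.w ≫ ρ)) 0
    ext
    · simp
    · simp [hρ, s.c2, z31 s.hu]
    · simp
    · simp [z23 s.hgu]
  · change biprod.desc (biprod.lift (-(-a⟦(1 : ℤ)⟧')) (𝟙 (P⟦(1 : ℤ)⟧))) (biprod.lift 0 s.w₀) ≫
      biprod.desc (biprod.lift (-𝟙 _) 0) (biprod.lift (a⟦(1 : ℤ)⟧') (𝟙 _)) =
      biprod.desc (biprod.lift 0 (𝟙 _)) (biprod.lift (𝟙 _) s.w₀) ≫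
        biprod.map (s.w₀ ≫ a⟦(1 : ℤ)⟧') (𝟙 _)
    ext <;> simp
  · change biprod.desc
        (-(s.v⟦(1 : ℤ)⟧' ≫ (biprod.inl : s.Z ⟶ s.Z ⊞ P)⟦(1 : ℤ)⟧') +
          g⟦(1 : ℤ)⟧' ≫ (biprod.inr : P ⟶ s.Z ⊞ P)⟦(1 : ℤ)⟧')
        ((-(a ≫ g)⟦(1 : ℤ)⟧') ≫ (biprod.inr : P ⟶ s.Z ⊞ P)⟦(1 : ℤ)⟧') ≫
        ((biprod.braiding s.Z P).hom)⟦(1 : ℤ)⟧' =
      biprod.desc (biprod.lift (-𝟙 _) 0) (biprod.lift (a⟦(1 : ℤ)⟧') (𝟙 _)) ≫
        biprod.desc (-(biprod.lift g (-s.v))⟦(1 : ℤ)⟧') 0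
    have e1 : (biprod.inl : s.Z ⟶ s.Z ⊞ P) ≫ (biprod.braiding s.Z P).hom = biprod.inr := by
      ext <;> simp
    have e2 : (biprod.inr : P ⟶ s.Z ⊞ P) ≫ (biprod.braiding s.Z P).hom = biprod.inl := by
      ext <;> simp
    have e1' := congrArg (fun x => x⟦(1 : ℤ)⟧') e1
    have e2' := congrArg (fun x => x⟦(1 : ℤ)⟧') e2
    rw [Functor.map_comp] at e1' e2'
    have e3 : biprod.lift g (-s.v) = g ≫ biprod.inl - s.v ≫ biprod.inr := by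
      ext <;> simp
    have e3' := congrArg (fun x => x⟦(1 : ℤ)⟧') e3
    rw [Functor.map_sub, Functor.map_comp, Functor.map_comp] at e3'
    have e4 : a⟦(1 : ℤ)⟧' ≫ s.v⟦(1 : ℤ)⟧' = 0 := by
      rw [← Functor.map_comp, z12 s.hu, Functor.map_zero]
    apply biprod.hom_ext'
    · rw [biprod.inl_desc_assoc, biprod.inl_desc_assoc, biprod.lift_desc, Preadditive.add_comp,
        Preadditive.neg_comp, assoc, assoc, e1', e2', e3']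
      simp only [Preadditive.neg_comp, Preadditive.comp_neg, id_comp, comp_zero, add_zero]
      abel
    · rw [biprod.inr_desc_assoc, biprod.inr_desc_assoc, biprod.lift_desc, assoc, e2', e3']
      simp only [Preadditive.neg_comp, Preadditive.comp_neg, id_comp, comp_zero, add_zero,
        Preadditive.comp_sub, ← assoc, e4, zero_comp, sub_zero, Functor.map_comp]

/-- `mapB` is not Verdier good, under conditions on the commutative ring `End P`. -/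
lemma not_verdierGood_mapB (ρ : P⟦(1 : ℤ)⟧ ⟶ s.A) (hρ : ρ ≫ s.w₀ = a⟦(1 : ℤ)⟧')
    (hcomm : ∀ x y : P ⟶ P, x ≫ y = y ≫ x) (hvan : ∀ f : P ⟶ P⟦(1 : ℤ)⟧, f = 0)
    (h0 : a ≫ a ≫ g = 0)
    (H : ∀ l y τ z : P ⟶ P, g ≫ l ≫ a = g ≫ g ≫ y → g ≫ τ = 0 →
      a ≫ a ≫ (𝟙 P - l + g ≫ z) ≠ a ≫ τ) : ¬ VerdierGood (mapB s ρ hρ) := by
  intro hV
  obtain ⟨B, m₁, m₂, hB⟩ := distinguished_cocone_triangle (s.α + s.w ≫ ρ)
  have hD : Triangle.mk (s.v ≫ (s.α + s.w ≫ ρ)) (biprod.lift s.w₀ s.β)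
      (biprod.desc (-a⟦(1 : ℤ)⟧') s.g'') ∈ distTriang C := by
    have : s.v ≫ (s.α + s.w ≫ ρ) = g ≫ s.v₀ := by
      rw [Preadditive.comp_add, ← assoc, z23 s.hu, zero_comp, add_zero, s.c1]
    rw [this]
    exact s.hc2
  obtain ⟨α₁, β₁, α₂, β₂, ⟨-, c11, c12, -, -⟩, ⟨m2, c21, c22, c23, -⟩, hh⟩ :=
    (verdierGood_iff (mapB s ρ hρ)).1 hV _ B s.Y'' (biprod.lift s.w₀ s.β)
      (biprod.desc (-a⟦(1 : ℤ)⟧') s.g'') m₁ m₂ s.g' s.g'' hD hB s.hg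
  change P⟦(1 : ℤ)⟧ ⟶ (P⟦(1 : ℤ)⟧) ⊞ s.Y'' at α₁
  change (P⟦(1 : ℤ)⟧) ⊞ s.Y'' ⟶ P⟦(1 : ℤ)⟧ at β₂
  change s.w ≫ α₁ = (s.α + s.w ≫ ρ) ≫ biprod.lift s.w₀ s.β at c11
  change α₁ ≫ biprod.desc (-a⟦(1 : ℤ)⟧') s.g'' = -a⟦(1 : ℤ)⟧' at c12
  change s.g' ≫ α₂ = s.v₀ ≫ biprod.lift s.w₀ s.β at c21
  change α₂ ≫ biprod.desc (-a⟦(1 : ℤ)⟧') s.g'' = s.g'' at c22
  change biprod.lift s.w₀ s.β ≫ β₂ = s.w₀ at c23
  change 𝟙 (P⟦(1 : ℤ)⟧) = α₁ ≫ β₂ at hh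
  have m2' : α₂ ≫ β₂ = 0 := z12 m2
  -- components
  obtain ⟨a₁, a₂, rfl⟩ : ∃ a₁ a₂, α₁ = biprod.lift a₁ a₂ :=
    ⟨α₁ ≫ biprod.fst, α₁ ≫ biprod.snd, by ext <;> simp⟩
  obtain ⟨c₁, c₂, rfl⟩ : ∃ c₁ c₂, α₂ = biprod.lift c₁ c₂ :=
    ⟨α₂ ≫ biprod.fst, α₂ ≫ biprod.snd, by ext <;> simp⟩
  obtain ⟨b₁, b₂, rfl⟩ : ∃ b₁ b₂, β₂ = biprod.desc b₁ b₂ :=
    ⟨biprod.inl ≫ β₂, biprod.inr ≫ β₂, by ext <;> simp⟩
  have E2 : s.w ≫ a₁ = s.w := by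
    have h := congrArg (fun x => x ≫ (biprod.fst : (P⟦(1 : ℤ)⟧) ⊞ s.Y'' ⟶ _)) c11
    simp only [assoc, biprod.lift_fst] at h
    rw [h, Preadditive.add_comp, assoc, hρ, z31 s.hu, add_zero, s.c2]
  have E2' : s.w ≫ a₂ = s.w ≫ ρ ≫ s.β := by
    have h := congrArg (fun x => x ≫ (biprod.snd : (P⟦(1 : ℤ)⟧) ⊞ s.Y'' ⟶ _)) c11
    simp only [assoc, biprod.lift_snd] at h
    rw [h, Preadditive.add_comp, s.c5, zero_add, assoc]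
  have E3 : s.g' ≫ c₁ = 0 := by
    have h := congrArg (fun x => x ≫ (biprod.fst : (P⟦(1 : ℤ)⟧) ⊞ s.Y'' ⟶ _)) c21
    simp only [assoc, biprod.lift_fst] at h
    rw [h, z23 s.hgu]
  have E3' : s.g' ≫ c₂ = s.g' := by
    have h := congrArg (fun x => x ≫ (biprod.snd : (P⟦(1 : ℤ)⟧) ⊞ s.Y'' ⟶ _)) c21
    simp only [assoc, biprod.lift_snd] at h
    rw [h, s.c3]
  rw [biprod.lift_desc] at c12 c22 c23 hh m2'
  -- preimages under the shift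
  obtain ⟨p, hp⟩ := (shiftFunctor C (1 : ℤ)).map_surjective a₁
  obtain ⟨k, hk⟩ := (shiftFunctor C (1 : ℤ)).map_surjective b₁
  obtain ⟨l₀, hl₀⟩ := ye3 s.hg b₂ (hvan _)
  obtain ⟨l, hl⟩ := (shiftFunctor C (1 : ℤ)).map_surjective l₀
  obtain ⟨q₀, hq₀⟩ := ye3 s.hg c₁ E3
  obtain ⟨q, hq⟩ := (shiftFunctor C (1 : ℤ)).map_surjective q₀
  obtain ⟨σ, hσ⟩ := ye3 s.hg (c₂ - 𝟙 _) (by rw [Preadditive.comp_sub, E3', comp_id, sub_self])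
  obtain ⟨t, ht⟩ := (shiftFunctor C (1 : ℤ)).map_surjective (σ ≫ s.g'')
  obtain ⟨e₁, he₁⟩ := (shiftFunctor C (1 : ℤ)).map_surjective (a₂ ≫ s.g'')
  subst hp hk hl₀ hl hq₀ hq
  have hc₂ : c₂ = 𝟙 _ + s.g'' ≫ σ := by rw [← hσ]; abel
  -- relations in the endomorphism ring
  have r1 : -(p ≫ a) + e₁ = -a := by
    apply (shiftFunctor C (1 : ℤ)).map_injective
    rw [Functor.map_add, Functor.map_neg, Functor.map_neg, Functor.map_comp, he₁, ← c12,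
      Preadditive.comp_neg]
  obtain ⟨p', hp'⟩ : ∃ p' : P ⟶ P, p - 𝟙 P = a ≫ p' := by
    obtain ⟨x, hx⟩ := ye4 s.hu (p⟦(1 : ℤ)⟧' - 𝟙 _) (by rw [Preadditive.comp_sub, E2, comp_id,
      sub_self])
    obtain ⟨x, rfl⟩ := (shiftFunctor C (1 : ℤ)).map_surjective x
    refine ⟨x, ?_⟩
    apply (shiftFunctor C (1 : ℤ)).map_injective
    rw [Functor.map_sub, CategoryTheory.Functor.map_id, Functor.map_comp, hx]
  obtain ⟨τ, hτ1, hτ2⟩ : ∃ τ : P ⟶ P, e₁ - a ≫ a = a ≫ τ ∧ τ ≫ g = 0 := by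
    obtain ⟨x, hx⟩ := ye4 s.hu (a₂ - ρ ≫ s.β) (by rw [Preadditive.comp_sub, E2', sub_self])
    obtain ⟨τ, hτ⟩ := (shiftFunctor C (1 : ℤ)).map_surjective (x ≫ s.g'')
    refine ⟨τ, ?_, ?_⟩
    · apply (shiftFunctor C (1 : ℤ)).map_injective
      rw [Functor.map_sub, Functor.map_comp, Functor.map_comp, he₁, hτ, ← assoc, ← hx,
        Preadditive.sub_comp, assoc, s.c4, ← assoc ρ, hρ]
    · apply (shiftFunctor C (1 : ℤ)).map_injective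
      rw [Functor.map_comp, hτ, assoc, z31 s.hg, comp_zero, Functor.map_zero]
  obtain ⟨n, hn⟩ : ∃ n : P ⟶ P, t - q ≫ a = g ≫ n := by
    obtain ⟨x, hx⟩ := ye4 s.hg (t⟦(1 : ℤ)⟧' - (q ≫ a)⟦(1 : ℤ)⟧') (by
      have h := c22
      rw [hc₂, Preadditive.add_comp, id_comp, assoc, assoc, ← ht, Preadditive.comp_neg,
        ← Functor.map_comp, Preadditive.comp_neg] at h
      rw [Preadditive.comp_sub]
      have h2 : s.g'' ≫ t⟦(1 : ℤ)⟧' - s.g'' ≫ (q ≫ a)⟦(1 : ℤ)⟧' = 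
        (-(s.g'' ≫ (q ≫ a)⟦(1 : ℤ)⟧') + (s.g'' + s.g'' ≫ t⟦(1 : ℤ)⟧')) - s.g'' := by abel
      rw [h2, h, sub_self])
    obtain ⟨x, rfl⟩ := (shiftFunctor C (1 : ℤ)).map_surjective x
    refine ⟨x, ?_⟩
    apply (shiftFunctor C (1 : ℤ)).map_injective
    rw [Functor.map_sub, hx, Functor.map_comp]
  have r5 : t ≫ g = 0 := by
    apply (shiftFunctor C (1 : ℤ)).map_injective
    rw [Functor.map_comp, ht, assoc, z31 s.hg, comp_zero, Functor.map_zero]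
  obtain ⟨k', hk'⟩ : ∃ k' : P ⟶ P, k + a ≫ l - 𝟙 P = (a ≫ g) ≫ k' := by
    obtain ⟨x, hx⟩ := ye4 s.hgu (k⟦(1 : ℤ)⟧' + (a ≫ l)⟦(1 : ℤ)⟧' - 𝟙 _) (by
      rw [Preadditive.comp_sub, Preadditive.comp_add, comp_id, Functor.map_comp, ← assoc,
        ← s.c4, assoc s.β, c23, sub_self])
    obtain ⟨x, rfl⟩ := (shiftFunctor C (1 : ℤ)).map_surjective x
    refine ⟨x, ?_⟩
    apply (shiftFunctor C (1 : ℤ)).map_injective
    rw [Functor.map_sub, Functor.map_add, CategoryTheory.Functor.map_id, hx,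
      Functor.map_comp _ (a ≫ g)]
  obtain ⟨x, hx⟩ : ∃ x : P ⟶ P, q ≫ k + l + t ≫ l = g ≫ x := by
    obtain ⟨x, hx⟩ := ye4 s.hg ((q ≫ k)⟦(1 : ℤ)⟧' + l⟦(1 : ℤ)⟧' + (t ≫ l)⟦(1 : ℤ)⟧') (by
      have h := m2'
      rw [hc₂, Preadditive.add_comp, id_comp, assoc, assoc, ← assoc σ, ← ht,
        ← Functor.map_comp, ← Functor.map_comp] at h
      rw [Preadditive.comp_add, Preadditive.comp_add, add_assoc, h])
    obtain ⟨x, rfl⟩ := (shiftFunctor C (1 : ℤ)).map_surjective x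
    refine ⟨x, ?_⟩
    apply (shiftFunctor C (1 : ℤ)).map_injective
    rw [Functor.map_add, Functor.map_add, hx, Functor.map_comp]
  have r8 : p ≫ k + e₁ ≫ l = 𝟙 P := by
    apply (shiftFunctor C (1 : ℤ)).map_injective
    rw [Functor.map_add, Functor.map_comp, Functor.map_comp, he₁, assoc,
      CategoryTheory.Functor.map_id, hh]
  -- the commutative ring
  let _ : CommRing (End P) := { (inferInstance : Ring (End P)) with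
    mul_comm := fun x y => hcomm y x }
  have hm : ∀ x y : End P, (x * y : End P) = (x ≫ y : P ⟶ P) := fun x y => hcomm y x
  obtain ⟨R1, R2⟩ := ring_part (R := End P) (u := a) (g := g) (p := p) (e₁ := e₁) (p' := p')
    (τ := τ) (s := t) (q := q) (n := n) (k := k) (l := l) (k' := k') (x := x)
    (by rw [hm]; exact r1) (by rw [hm]; exact hp') (by rw [hm, hm]; exact hτ1)
    (by rw [hm, hm]; exact hn) (by rw [hm]; exact r5)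
    (by rw [hm, hm, hm]; exact hk') (by rw [hm, hm, hm]; exact hx)
    (by rw [hm, hm]; exact r8) (by rw [hm, hm, assoc]; exact h0)
  simp only [hm] at R1 R2
  refine H l ((x - (q ≫ a) ≫ k' - n ≫ l) ≫ a + n) (-τ) k' ?_ ?_ ?_
  · rw [← assoc, ← assoc]
    exact R1
  · rw [Preadditive.comp_neg, ← hcomm, hτ2, neg_zero]
  · rw [← assoc]
    exact R2

end Pool.Agent.V1166.VG
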