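import Pool.Agent.V1166.VG.Basic

/-! Octahedra with two homotopy cartesian squares in homotopy categories. -/

noncomputable section

namespace Pool.Agent.V1166.VG

open CategoryTheory Category Limits Pretriangulated

universe v u

section Formal

variable {C : Type u} [Category.{v} C] [Preadditive C] [HasZeroObject C] [HasShift C ℤ]
  [∀ n : ℤ, (shiftFunctor C n).Additive] [Pretriangulated C]

/-- Replace the middle object of a distinguished triangle by a biproduct. -/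
lemma dist_biprod_mid {Y N A Y' Z : C} {a : Y ⟶ N} {b : N ⟶ A} {c : A ⟶ Y⟦(1 : ℤ)⟧}
    (h : Triangle.mk a b c ∈ distTriang C)
    {i₁ : Y' ⟶ N} {i₂ : Z ⟶ N} {p₁ : N ⟶ Y'} {p₂ : N ⟶ Z}
    (h11 : i₁ ≫ p₁ = 𝟙 _) (h12 : i₁ ≫ p₂ = 0) (h21 : i₂ ≫ p₁ = 0) (h22 : i₂ ≫ p₂ = 𝟙 _)
    (tot : p₁ ≫ i₁ + p₂ ≫ i₂ = 𝟙 N)
    {x : Y ⟶ Y'} {y : Y ⟶ Z} (hx : a ≫ p₁ = x) (hy : a ≫ p₂ = y)
    {z : Y' ⟶ A} {t : Z ⟶ A} (hz : i₁ ≫ b = z) (ht : i₂ ≫ b = t) :
    Triangle.mk (biprod.lift x y) (biprod.desc z t) c ∈ distTriang C := by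
  subst hx hy hz ht
  let e : Y' ⊞ Z ≅ N :=
    { hom := biprod.desc i₁ i₂
      inv := biprod.lift p₁ p₂
      hom_inv_id := by ext <;> simp [h11, h12, h21, h22]
      inv_hom_id := by rw [biprod.lift_desc, tot] }
  refine dist_of_iso h (Iso.refl Y) e (Iso.refl A) ?_ ?_ ?_
  · change biprod.lift (a ≫ p₁) (a ≫ p₂) ≫ biprod.desc i₁ i₂ = 𝟙 Y ≫ a
    rw [biprod.lift_desc, assoc, assoc, ← Preadditive.comp_add, tot, comp_id, id_comp]
  · change biprod.desc (i₁ ≫ b) (i₂ ≫ b) ≫ 𝟙 A = biprod.desc i₁ i₂ ≫ b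
    ext <;> simp
  · change c ≫ (𝟙 Y)⟦(1 : ℤ)⟧' = 𝟙 A ≫ c
    rw [CategoryTheory.Functor.map_id, comp_id, id_comp]

/-- Octahedral data for `u`, `g` such that two squares are homotopy cartesian. -/
structure StrongOct {X Y Y' : C} (a : X ⟶ Y) (g : Y ⟶ Y') where
  Z : C
  A : C
  Y'' : C
  v : Y ⟶ Z
  w : Z ⟶ X⟦(1 : ℤ)⟧
  hu : Triangle.mk a v w ∈ distTriang C
  g' : Y' ⟶ Y''
  g'' : Y'' ⟶ Y⟦(1 : ℤ)⟧
  hg : Triangle.mk g g' g'' ∈ distTriang C
  v₀ : Y' ⟶ A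
  w₀ : A ⟶ X⟦(1 : ℤ)⟧
  hgu : Triangle.mk (a ≫ g) v₀ w₀ ∈ distTriang C
  α : Z ⟶ A
  β : A ⟶ Y''
  c1 : v ≫ α = g ≫ v₀
  c2 : α ≫ w₀ = w
  c3 : v₀ ≫ β = g'
  c4 : β ≫ g'' = w₀ ≫ a⟦(1 : ℤ)⟧'
  c5 : α ≫ β = 0
  hc1 : Triangle.mk (biprod.lift g (-v)) (biprod.desc v₀ α) (w₀ ≫ a⟦(1 : ℤ)⟧') ∈ distTriang C
  hc2 : Triangle.mk (g ≫ v₀) (biprod.lift w₀ β) (biprod.desc (-a⟦(1 : ℤ)⟧') g'') ∈ distTriang C

end Formal

section Complexes

open CochainComplex CochainComplex.mappingCone HomologicalComplex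

variable {𝒜 : Type u} [Category.{v} 𝒜] [Preadditive 𝒜] [HasZeroObject 𝒜]
  [HasBinaryBiproducts 𝒜] {X Y Y' : CochainComplex 𝒜 ℤ} (a : X ⟶ Y) (g : Y ⟶ Y')

/-- The map of mapping cones `C(a) ⟶ C(a ≫ g)`. -/
abbrev alphaC : mappingCone a ⟶ mappingCone (a ≫ g) :=
  mappingCone.map a (a ≫ g) (𝟙 X) g (by rw [id_comp])

/-- The map of mapping cones `C(a ≫ g) ⟶ C(g)`. -/
abbrev betaC : mappingCone (a ≫ g) ⟶ mappingCone g :=
  mappingCone.map (a ≫ g) g a (𝟙 Y') (by rw [comp_id])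

/-- The third map of the standard triangle of a mapping cone. -/
def dC {K L : CochainComplex 𝒜 ℤ} (φ : K ⟶ L) : mappingCone φ ⟶ K⟦(1 : ℤ)⟧ := (triangle φ).mor₃

omit [HasZeroObject 𝒜] in
lemma alphaC_dC : alphaC a g ≫ dC (a ≫ g) = dC a := by
  have h : dC a ≫ (𝟙 X)⟦(1 : ℤ)⟧' = alphaC a g ≫ dC (a ≫ g) :=
    (triangleMap a (a ≫ g) (𝟙 X) g (by rw [id_comp])).comm₃
  rw [← h, CategoryTheory.Functor.map_id]
  exact comp_id _

omit [HasZeroObject 𝒜] in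
lemma betaC_dC : betaC a g ≫ dC g = dC (a ≫ g) ≫ a⟦(1 : ℤ)⟧' :=
  ((triangleMap (a ≫ g) g a (𝟙 Y') (by rw [comp_id])).comm₃).symm

/-- The short exact sequence `Y ⟶ Y' ⊕ C(a) ⟶ C(a ≫ g)`. -/
@[simps]
def S₁ : ShortComplex (CochainComplex 𝒜 ℤ) where
  X₁ := Y
  X₂ := Y' ⊞ mappingCone a
  X₃ := mappingCone (a ≫ g)
  f := biprod.lift g (-inr a)
  g := biprod.desc (inr (a ≫ g)) (alphaC a g)
  zero := by
    rw [biprod.lift_desc]
    simp [mappingCone.map]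

set_option backward.defeqAttrib.useBackward true in
set_option backward.isDefEq.respectTransparency false in
/-- Its degreewise splitting. -/
@[simps]
def σ₁ (n : ℤ) : ((S₁ a g).map (HomologicalComplex.eval 𝒜 _ n)).Splitting where
  r := -((biprod.snd : Y' ⊞ mappingCone a ⟶ mappingCone a).f n ≫ (snd a).v n n (add_zero n))
  s := (snd (a ≫ g)).v n n (add_zero n) ≫ (biprod.inl : Y' ⟶ Y' ⊞ mappingCone a).f n +
    (fst (a ≫ g)).1.v n (n + 1) rfl ≫ (inl a).v (n + 1) n (by lia) ≫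
      (biprod.inr : mappingCone a ⟶ Y' ⊞ mappingCone a).f n
  f_r := by
    dsimp
    simp
  s_g := by
    dsimp
    rw [mappingCone.ext_from_iff _ (n + 1) n rfl]
    constructor
    · simp [mappingCone.map]
    · simp
  id := by
    dsimp
    rw [HomologicalComplex.biprodX_ext_from_iff]
    constructor
    · ext <;> simp
    · rw [mappingCone.ext_from_iff _ (n + 1) n rfl]
      constructor
      · ext <;> simp [mappingCone.map]
      · ext <;> simp [mappingCone.map]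

set_option backward.defeqAttrib.useBackward true in
set_option backward.isDefEq.respectTransparency false in
lemma hom_σ₁ : homOfDegreewiseSplit (S₁ a g) (σ₁ a g) =
    dC (a ≫ g) ≫ a⟦(1 : ℤ)⟧' := by
  rw [dC]
  ext n
  rw [homOfDegreewiseSplit_f]
  dsimp [cocycleOfDegreewiseSplit]
  rw [mappingCone.ext_from_iff _ (n + 1) n rfl]
  constructor
  · simp [d_snd_v a n (n + 1) rfl]
  · simp [d_snd_v a n (n + 1) rfl]

/-- The short exact sequence `C(a ≫ g) ⟶ X[1] ⊕ C(g) ⟶ Y[1]`. -/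
@[simps]
def S₂ : ShortComplex (CochainComplex 𝒜 ℤ) where
  X₁ := mappingCone (a ≫ g)
  X₂ := (X⟦(1 : ℤ)⟧) ⊞ mappingCone g
  X₃ := Y⟦(1 : ℤ)⟧
  f := biprod.lift (dC (a ≫ g)) (betaC a g)
  g := biprod.desc (-a⟦(1 : ℤ)⟧') (dC g)
  zero := by
    rw [biprod.lift_desc, betaC_dC, Preadditive.comp_neg, neg_add_cancel]

set_option backward.defeqAttrib.useBackward true in
set_option backward.isDefEq.respectTransparency false in
/-- Its degreewise splitting. -/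
@[simps]
def σ₂ (n : ℤ) : ((S₂ a g).map (HomologicalComplex.eval 𝒜 _ n)).Splitting where
  r := -((biprod.fst : (X⟦(1 : ℤ)⟧) ⊞ mappingCone g ⟶ X⟦(1 : ℤ)⟧).f n ≫
      (inl (a ≫ g)).v (n + 1) n (by lia)) +
    (biprod.snd : (X⟦(1 : ℤ)⟧) ⊞ mappingCone g ⟶ mappingCone g).f n ≫
      (snd g).v n n (add_zero n) ≫ (inr (a ≫ g)).f n
  s := -((inl g).v (n + 1) n (by lia) ≫
    (biprod.inr : mappingCone g ⟶ (X⟦(1 : ℤ)⟧) ⊞ mappingCone g).f n)
  f_r := by
    dsimp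
    rw [mappingCone.ext_from_iff _ (n + 1) n rfl]
    constructor
    · simp [mappingCone.map, dC]
    · simp [mappingCone.map, dC]
  s_g := by
    dsimp
    simp [dC]
  id := by
    dsimp
    rw [HomologicalComplex.biprodX_ext_from_iff]
    constructor
    · apply HomologicalComplex.biprodX_ext_to
      · simp [dC]
      · simp [mappingCone.map, dC]
    · rw [mappingCone.ext_from_iff _ (n + 1) n rfl]
      constructor
      · ext <;> simp [mappingCone.map, dC]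
      · ext <;> simp [mappingCone.map, dC]

set_option backward.defeqAttrib.useBackward true in
set_option backward.isDefEq.respectTransparency false in
lemma hom_σ₂ : homOfDegreewiseSplit (S₂ a g) (σ₂ a g) =
    -(g ≫ inr (a ≫ g))⟦(1 : ℤ)⟧' := by
  ext n
  rw [homOfDegreewiseSplit_f]
  dsimp [cocycleOfDegreewiseSplit]
  simp [inl_v_d_assoc g (n + 1) n (n + 1 + 1) (by lia) (by lia)]

variable (𝒜) in
/-- The quotient functor to the homotopy category. -/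
abbrev QQ := HomotopyCategory.quotient 𝒜 (ComplexShape.up ℤ)

/-- The commutation of the quotient functor with the shift. -/
def ιs (K : CochainComplex 𝒜 ℤ) : (QQ 𝒜).obj (K⟦(1 : ℤ)⟧) ≅ ((QQ 𝒜).obj K)⟦(1 : ℤ)⟧ :=
  ((QQ 𝒜).commShiftIso (1 : ℤ)).app K

lemma ιs_nat {K L : CochainComplex 𝒜 ℤ} (f : K ⟶ L) :
    (QQ 𝒜).map (f⟦(1 : ℤ)⟧') ≫ (ιs L).hom = (ιs K).hom ≫ ((QQ 𝒜).map f)⟦(1 : ℤ)⟧' :=
  ((QQ 𝒜).commShiftIso (1 : ℤ)).hom.naturality f

lemma dist_cone {K L : CochainComplex 𝒜 ℤ} (f : K ⟶ L) :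
    Triangle.mk ((QQ 𝒜).map f) ((QQ 𝒜).map (inr f)) ((QQ 𝒜).map (dC f) ≫ (ιs K).hom) ∈
      distTriang (HomotopyCategory 𝒜 (ComplexShape.up ℤ)) :=
  HomotopyCategory.mappingCone_triangleh_distinguished f

lemma dist_split (S : ShortComplex (CochainComplex 𝒜 ℤ))
    (σ : ∀ n, (S.map (HomologicalComplex.eval 𝒜 _ n)).Splitting) :
    Triangle.mk ((QQ 𝒜).map S.f) ((QQ 𝒜).map S.g)
      ((QQ 𝒜).map (homOfDegreewiseSplit S σ) ≫ (ιs S.X₁).hom) ∈
      distTriang (HomotopyCategory 𝒜 (ComplexShape.up ℤ)) :=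
  (HomotopyCategory.distinguished_iff_iso_trianglehOfDegreewiseSplit
      (trianglehOfDegreewiseSplit S σ)).2 ⟨S, σ, ⟨Iso.refl _⟩⟩

/-- Octahedral data in the homotopy category. -/
def strongOctOfHom : StrongOct ((QQ 𝒜).map a) ((QQ 𝒜).map g) where
  Z := (QQ 𝒜).obj (mappingCone a)
  A := (QQ 𝒜).obj (mappingCone (a ≫ g))
  Y'' := (QQ 𝒜).obj (mappingCone g)
  v := (QQ 𝒜).map (inr a)
  w := (QQ 𝒜).map (dC a) ≫ (ιs X).hom
  hu := dist_cone a
  g' := (QQ 𝒜).map (inr g)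
  g'' := (QQ 𝒜).map (dC g) ≫ (ιs Y).hom
  hg := dist_cone g
  v₀ := (QQ 𝒜).map (inr (a ≫ g))
  w₀ := (QQ 𝒜).map (dC (a ≫ g)) ≫ (ιs X).hom
  hgu := by
    rw [← Functor.map_comp]
    exact dist_cone (a ≫ g)
  α := (QQ 𝒜).map (alphaC a g)
  β := (QQ 𝒜).map (betaC a g)
  c1 := by
    rw [← Functor.map_comp, ← Functor.map_comp]
    congr 1
    exact (triangleMap a (a ≫ g) (𝟙 X) g (by rw [id_comp])).comm₂
  c2 := by
    rw [← assoc, ← Functor.map_comp, alphaC_dC]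
  c3 := by
    rw [← Functor.map_comp]
    congr 1
    have h := (triangleMap (a ≫ g) g a (𝟙 Y') (by rw [comp_id])).comm₂
    refine h.trans ?_
    exact id_comp _
  c4 := by
    rw [← assoc, ← Functor.map_comp, betaC_dC, Functor.map_comp, assoc, ιs_nat, assoc]
  c5 := comp_distTriang_mor_zero₁₂ _ (HomotopyCategory.mappingConeCompTriangleh_distinguished a g)
  hc1 := by
    have h : Triangle.mk ((QQ 𝒜).map (biprod.lift g (-inr a)))
        ((QQ 𝒜).map (biprod.desc (inr (a ≫ g)) (alphaC a g)))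
        ((QQ 𝒜).map (dC (a ≫ g) ≫ a⟦(1 : ℤ)⟧') ≫ (ιs Y).hom) ∈
        distTriang (HomotopyCategory 𝒜 (ComplexShape.up ℤ)) := by
      have h := dist_split (S₁ a g) (σ₁ a g)
      rw [hom_σ₁] at h
      exact h
    rw [Functor.map_comp, assoc, ιs_nat] at h
    rw [assoc]
    refine dist_biprod_mid h (i₁ := (QQ 𝒜).map biprod.inl) (i₂ := (QQ 𝒜).map biprod.inr)
      (p₁ := (QQ 𝒜).map biprod.fst) (p₂ := (QQ 𝒜).map biprod.snd) ?_ ?_ ?_ ?_ ?_ ?_ ?_ ?_ ?_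
    · rw [← Functor.map_comp, biprod.inl_fst, CategoryTheory.Functor.map_id]
    · rw [← Functor.map_comp, biprod.inl_snd, Functor.map_zero]
    · rw [← Functor.map_comp, biprod.inr_fst, Functor.map_zero]
    · rw [← Functor.map_comp, biprod.inr_snd, CategoryTheory.Functor.map_id]
    · rw [← Functor.map_comp, ← Functor.map_comp, ← Functor.map_add, biprod.total,
        CategoryTheory.Functor.map_id]
    · rw [← Functor.map_comp, biprod.lift_fst]
    · rw [← Functor.map_comp, biprod.lift_snd, Functor.map_neg]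
    · rw [← Functor.map_comp, biprod.inl_desc]
    · rw [← Functor.map_comp, biprod.inr_desc]
  hc2 := by
    have h : Triangle.mk ((QQ 𝒜).map (biprod.lift (dC (a ≫ g)) (betaC a g)))
        ((QQ 𝒜).map (biprod.desc (-a⟦(1 : ℤ)⟧') (dC g)))
        ((QQ 𝒜).map (-(g ≫ inr (a ≫ g))⟦(1 : ℤ)⟧') ≫ (ιs (mappingCone (a ≫ g))).hom) ∈
        distTriang (HomotopyCategory 𝒜 (ComplexShape.up ℤ)) := by
      have h := dist_split (S₂ a g) (σ₂ a g)
      rw [hom_σ₂] at h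
      exact h
    rw [Functor.map_neg, Preadditive.neg_comp, ιs_nat, Functor.map_comp] at h
    rw [rotate_distinguished_triangle]
    have h2 : Triangle.mk ((QQ 𝒜).map (biprod.lift (dC (a ≫ g)) (betaC a g)))
        ((QQ 𝒜).map (biprod.desc (-a⟦(1 : ℤ)⟧') (dC g)) ≫ (ιs Y).hom)
        (-((QQ 𝒜).map g ≫ (QQ 𝒜).map (inr (a ≫ g)))⟦(1 : ℤ)⟧') ∈
        distTriang (HomotopyCategory 𝒜 (ComplexShape.up ℤ)) := by
      refine dist_of_iso h (Iso.refl _) (Iso.refl _) (ιs Y).symm ?_ ?_ ?_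
      · simp
      · simp
      · simp
    refine dist_biprod_mid h2 (i₁ := (ιs X).inv ≫ (QQ 𝒜).map biprod.inl)
      (i₂ := (QQ 𝒜).map biprod.inr)
      (p₁ := (QQ 𝒜).map biprod.fst ≫ (ιs X).hom) (p₂ := (QQ 𝒜).map biprod.snd)
      ?_ ?_ ?_ ?_ ?_ ?_ ?_ ?_ ?_
    · rw [assoc, ← assoc ((QQ 𝒜).map biprod.inl), ← Functor.map_comp, biprod.inl_fst,
        CategoryTheory.Functor.map_id, id_comp, Iso.inv_hom_id]
    · rw [assoc, ← Functor.map_comp, biprod.inl_snd, Functor.map_zero, comp_zero]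
    · rw [← assoc, ← Functor.map_comp, biprod.inr_fst, Functor.map_zero, zero_comp]
    · rw [← Functor.map_comp, biprod.inr_snd, CategoryTheory.Functor.map_id]
    · rw [assoc, Iso.hom_inv_id_assoc, ← Functor.map_comp, ← Functor.map_comp,
        ← Functor.map_add, biprod.total, CategoryTheory.Functor.map_id]
    · rw [← assoc, ← Functor.map_comp, biprod.lift_fst]
    · rw [← Functor.map_comp, biprod.lift_snd]
    · rw [assoc, ← assoc ((QQ 𝒜).map biprod.inl), ← Functor.map_comp, biprod.inl_desc,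
        Functor.map_neg, Preadditive.neg_comp, ιs_nat, Preadditive.comp_neg,
        Iso.inv_hom_id_assoc]
    · rw [← assoc, ← Functor.map_comp, biprod.inr_desc]

/-- Octahedral data exist for all pairs of composable morphisms of the homotopy category. -/
lemma exists_strongOct {X Y Y' : HomotopyCategory 𝒜 (ComplexShape.up ℤ)} (a : X ⟶ Y)
    (g : Y ⟶ Y') : Nonempty (StrongOct a g) := by
  obtain ⟨X⟩ := X
  obtain ⟨Y⟩ := Y
  obtain ⟨Y'⟩ := Y'
  obtain ⟨a, rfl⟩ := (QQ 𝒜).map_surjective a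
  obtain ⟨g, rfl⟩ := (QQ 𝒜).map_surjective g
  exact ⟨strongOctOfHom a g⟩

end Complexes

end Pool.Agent.V1166.VG
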